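import Pool.Agent.Lib_helper37.RD.Core

/-!
# The growth of a lower row along the row-lexicographic chain of a higher row
-/

set_option autoImplicit false

open Pointwise Finset
open Pool.Agent.Lib_helper16.SD

namespace Pool.Agent.Lib_helper30.KB

open Pool.Agent.Lib_helper37.RD

section

variable {n k k' i c0 l I : ℕ} {K : ℝ} {B : Finset (ℕ × ℕ)} {A X Y : ℕ → Finset ℕ}

theorem row_eq' {r : ℕ} (h : r ≤ c0) {c : ℕ} (hc : c0 ≤ c) :
    row (c • B) r = row (c0 • B) r + (c - c0) • row B 0 := by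
  rw [row_eq (by omega : r ≤ c), row_eq h, add_assoc, ← add_nsmul]
  congr 2
  omega

/-- The growth of one increment. -/
theorem V_step' (hK : 0 < K) (hk' : 0 < k') (hl : l ≤ i) (hc0 : i - l ≤ c0) (hi : c0 ≤ k')
    (hik : k' + c0 ≤ k) (hg : Good n K B (k - c0) A X Y l) :
    ((V n B k X Y i (l + 1)).card : ℝ) - ((V n B k X Y i l).card : ℝ) ≤
      K ^ (k - k') * (((V n B k' X Y i (l + 1)).card : ℝ) - ((V n B k' X Y i l).card : ℝ)) := by
  classical
  obtain ⟨-, -, hmin, -⟩ := hg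
  rw [V_inc hl, V_inc hl]
  obtain ⟨r, hr⟩ : ∃ r, r = i - l := ⟨_, rfl⟩
  obtain ⟨h, hh⟩ : ∃ h, h = k - c0 := ⟨_, rfl⟩
  obtain ⟨Z, hZ⟩ : ∃ Z, Z = X l \ Y l := ⟨_, rfl⟩
  obtain ⟨C, hC⟩ : ∃ C, C = row (c0 • B) r := ⟨_, rfl⟩
  obtain ⟨B0, hB0⟩ : ∃ B0, B0 = row B 0 := ⟨_, rfl⟩
  rw [← hh, ← hZ, ← hB0] at hmin
  rw [← hr, ← hZ, row_eq' (by omega : r ≤ c0) (by omega : c0 ≤ k), row_eq' (by omega : r ≤ c0) hi,
    ← hC, ← hB0, ← hh]
  have hrk : c0 + h = k := by omega
  -- the graph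
  obtain ⟨al, hal⟩ : ∃ al : ℕ → ℕ → Prop, al = fun t x => x ≤ n ∧ x ∉ V n B (c0 + t) X Y i l := ⟨_, rfl⟩
  have halp : ∀ t x b, b ∈ B0 → al (t + 1) (x + b) → al t x := by
    intro t x b hb h1
    rw [hal] at h1 ⊢
    obtain ⟨h1, h2⟩ := h1
    refine ⟨by omega, fun h3 => h2 ?_⟩
    have h4 := V_add h3 (t := 1) (b := b) (by rw [one_nsmul, ← hB0]; exact hb) h1
    rw [← add_assoc]
    exact h4
  obtain ⟨A', hA'⟩ : ∃ A', A' = ((Z + C) \ V n B c0 X Y i l).filter (· ≤ n) := ⟨_, rfl⟩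
  have hmemA' : ∀ x, x ∈ A' ↔ (x ∈ Z + C ∧ x ∉ V n B c0 X Y i l) ∧ x ≤ n := by
    intro x
    rw [hA', Finset.mem_filter, Finset.mem_sdiff]
  have hIt : ∀ t, It B0 al t A' = (((Z + (C + t • B0)) \ V n B (c0 + t) X Y i l).filter (· ≤ n)) := by
    intro t
    ext x
    rw [mem_It' halp, Finset.mem_filter, Finset.mem_sdiff]
    constructor
    · rintro ⟨h1, h2⟩
      obtain ⟨u, hu, b, hb, rfl⟩ := Finset.mem_add.1 h1
      rw [hmemA'] at hu
      have h3 : u + b ∈ Z + (C + t • B0) := by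
        rw [← add_assoc]
        exact Finset.add_mem_add hu.1.1 hb
      rcases h2 with h2 | h2
      · subst h2
        rw [zero_nsmul, Finset.mem_zero] at hb
        subst hb
        exact ⟨⟨h3, hu.1.2⟩, hu.2⟩
      · rw [hal] at h2
        exact ⟨⟨h3, h2.2⟩, h2.1⟩
    · rintro ⟨⟨h1, h2⟩, h3⟩
      rw [← add_assoc] at h1
      obtain ⟨u, hu, b, hb, rfl⟩ := Finset.mem_add.1 h1
      refine ⟨Finset.add_mem_add ?_ hb, Or.inr ?_⟩
      · rw [hmemA']
        refine ⟨⟨hu, fun h4 => h2 ?_⟩, by omega⟩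
        exact V_add h4 (by rw [row_zero_eq, ← hB0]; exact hb) h3
      · rw [hal]
        exact ⟨h3, h2⟩
  obtain ⟨P0, hP0, hcut⟩ := cut A' B0 al halp h (by omega) K hK (k' - c0) (by omega)
  -- the top level
  have hpet := petr n (K ^ h) (by positivity) Z (h • B0) (E B h X Y l) (V n B c0 X Y i l ∪ P0)
    (V n B k X Y i l ∪ (P0 + h • B0)) hmin (by
      intro d hd b hb hn
      rw [Finset.mem_union] at hd ⊢
      rcases hd with hd | hd
      · left
        have h1 := V_add hd (t := h) (b := b) (by rw [row_zero_eq, ← hB0]; exact hb) hn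
        rw [hrk] at h1
        exact h1
      · exact Or.inr (Finset.add_mem_add hd hb)) C (by
      intro e he c hc hn
      rw [Finset.mem_union]
      left
      rw [mem_V]
      refine ⟨?_, hn⟩
      rw [mem_E] at he
      rw [hC] at hc
      have hhr : h + c0 = k := by omega
      rcases he with ⟨l', hl', h1⟩ | h1
      · right
        obtain ⟨x, hx, z, hz, rfl⟩ := Finset.mem_add.1 h1
        refine ⟨l', hl', ?_⟩
        have h2 := row_add hz hc
        rw [hhr, (by omega : l - l' + r = i - l')] at h2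
        rw [add_assoc]
        exact Finset.add_mem_add hx h2
      · left
        obtain ⟨x, hx, z, hz, rfl⟩ := Finset.mem_add.1 h1
        refine ⟨l, hl, ?_⟩
        have h2 := row_add hz hc
        rw [hhr, zero_add, hr] at h2
        rw [add_assoc]
        exact Finset.add_mem_add hx h2)
  have hA'P : (((Z + C) \ (V n B c0 X Y i l ∪ P0)).filter (· ≤ n)) = A' \ P0 := by
    ext x
    rw [Finset.mem_filter, Finset.mem_sdiff, Finset.mem_sdiff, hmemA', Finset.mem_union]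
    tauto
  rw [hA'P] at hpet
  have hsub : It B0 al h A' ⊆ (((Z + h • B0 + C) \ (V n B k X Y i l ∪ (P0 + h • B0))).filter (· ≤ n)) ∪
      It B0 al h P0 := by
    intro x hx
    rw [hIt, Finset.mem_filter, Finset.mem_sdiff, hrk] at hx
    obtain ⟨⟨h1, h2⟩, h3⟩ := hx
    rw [Finset.mem_union]
    by_cases h4 : x ∈ P0 + h • B0
    · right
      rw [mem_It' halp]
      refine ⟨h4, Or.inr ?_⟩
      rw [hal]
      refine ⟨h3, ?_⟩
      show x ∉ V n B (c0 + h) X Y i l
      rw [hrk]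
      exact h2
    · left
      rw [Finset.mem_filter, Finset.mem_sdiff, Finset.mem_union]
      refine ⟨⟨?_, fun h5 => h5.elim h2 h4⟩, h3⟩
      have h5 : Z + h • B0 + C = Z + (C + h • B0) := by abel
      rw [h5]
      exact h1
  have h1 : ((It B0 al h A').card : ℝ) ≤ K ^ h * ((A' \ P0).card : ℝ) + ((It B0 al h P0).card : ℝ) := by
    have h2 := Finset.card_le_card hsub
    have h3 := Finset.card_union_le (((Z + h • B0 + C) \ (V n B k X Y i l ∪ (P0 + h • B0))).filter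
      (· ≤ n)) (It B0 al h P0)
    have h4 : ((It B0 al h A').card : ℝ) ≤ (((((Z + h • B0 + C) \ (V n B k X Y i l ∪
        (P0 + h • B0))).filter (· ≤ n)).card : ℝ)) + ((It B0 al h P0).card : ℝ) := by
      exact_mod_cast h2.trans h3
    linarith
  have h2 : K⁻¹ ^ h * ((It B0 al h A').card : ℝ) ≤ K⁻¹ ^ (k' - c0) * ((It B0 al (k' - c0) A').card : ℝ) := by
    have h3 : K⁻¹ ^ h * ((It B0 al h A').card : ℝ) ≤ K⁻¹ ^ h * (K ^ h * ((A' \ P0).card : ℝ) +
        ((It B0 al h P0).card : ℝ)) := mul_le_mul_of_nonneg_left h1 (by positivity)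
    have h4 : K⁻¹ ^ h * (K ^ h * ((A' \ P0).card : ℝ) + ((It B0 al h P0).card : ℝ)) =
        ((A' \ P0).card : ℝ) + K⁻¹ ^ h * ((It B0 al h P0).card : ℝ) := by
      have h5 : K⁻¹ ^ h * K ^ h = 1 := by rw [← mul_pow, inv_mul_cancel₀ hK.ne', one_pow]
      calc K⁻¹ ^ h * (K ^ h * ((A' \ P0).card : ℝ) + ((It B0 al h P0).card : ℝ)) =
          (K⁻¹ ^ h * K ^ h) * ((A' \ P0).card : ℝ) + K⁻¹ ^ h * ((It B0 al h P0).card : ℝ) := by ring
        _ = _ := by rw [h5, one_mul]
    rw [h4] at h3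
    exact h3.trans hcut
  have h3 : ((It B0 al h A').card : ℝ) ≤ K ^ (k - k') * ((It B0 al (k' - c0) A').card : ℝ) := by
    have h4 : K ^ h = K ^ (k - k') * K ^ (k' - c0) := by
      rw [← pow_add]
      congr 1
      omega
    have h5 := mul_le_mul_of_nonneg_left h2 (by positivity : (0 : ℝ) ≤ K ^ h)
    have h6 : K ^ h * (K⁻¹ ^ h * ((It B0 al h A').card : ℝ)) = ((It B0 al h A').card : ℝ) := by
      rw [← mul_assoc, ← mul_pow, mul_inv_cancel₀ hK.ne', one_pow, one_mul]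
    have h7 : K ^ h * (K⁻¹ ^ (k' - c0) * ((It B0 al (k' - c0) A').card : ℝ)) =
        K ^ (k - k') * ((It B0 al (k' - c0) A').card : ℝ) := by
      rw [h4]
      have h8 : K ^ (k' - c0) * K⁻¹ ^ (k' - c0) = 1 := by
        rw [← mul_pow, mul_inv_cancel₀ hK.ne', one_pow]
      calc K ^ (k - k') * K ^ (k' - c0) * (K⁻¹ ^ (k' - c0) * ((It B0 al (k' - c0) A').card : ℝ)) =
          K ^ (k - k') * (K ^ (k' - c0) * K⁻¹ ^ (k' - c0)) * ((It B0 al (k' - c0) A').card : ℝ) := by ring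
        _ = _ := by rw [h8, mul_one]
    rw [h6, h7] at h5
    exact h5
  rw [hIt, hIt, hrk, (by omega : c0 + (k' - c0) = k')] at h3
  exact h3

/-- The growth of the row `i` along the chain of the row `I`. -/
theorem T_step' (hK : 0 < K) (hk' : 0 < k') (hiI : i ≤ I) (hi : I ≤ k') (hik : k' + I ≤ k)
    (hg : ∀ l ≤ i, Good n K B (k - (I - l)) A X Y l) (hYX : ∀ l, Y l ⊆ X l) :
    ((T n B k X i).card : ℝ) - ((T n B k Y i).card : ℝ) ≤
      K ^ (k - k') * (((T n B k' X i).card : ℝ) - ((T n B k' Y i).card : ℝ)) := by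
  have key : ∀ l ≤ i + 1, ((V n B k X Y i l).card : ℝ) - ((V n B k X Y i 0).card : ℝ) ≤
      K ^ (k - k') * (((V n B k' X Y i l).card : ℝ) - ((V n B k' X Y i 0).card : ℝ)) := by
    intro l
    induction l with
    | zero => intro _; simp
    | succ l ih =>
      intro hl
      have h1 := ih (by omega)
      have h2 := V_step' (k := k) (k' := k') (c0 := I - l) hK hk' (by omega : l ≤ i) (by omega) (by omega)
        (by omega) (hg l (by omega))
      linarith
  have h1 := key (i + 1) le_rfl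
  rw [V_top hYX, V_top hYX, V_zero, V_zero] at h1
  exact h1

end

end Pool.Agent.Lib_helper30.KB
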