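import Pool.Agent.Lib_helper30.KB.Far
import Pool.Agent.Lib_helper30.KB.Step

/-!
# The inequality in a box with two rows
-/

set_option autoImplicit false

open Pointwise Finset Filter Topology

namespace Pool.Agent.Lib_helper30.KB

open Pool.Agent.Lib_helper37.RD

/-- The length which is covered by the first element. -/
def len (n : ℕ) (X : Finset ℕ) : ℕ := X.sup fun y => n + 1 - y

theorem len_mono {n : ℕ} {X Y : Finset ℕ} (h : X ⊆ Y) : len n X ≤ len n Y := Finset.sup_mono h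

theorem len_empty (n : ℕ) : len n ∅ = 0 := Finset.sup_empty

theorem len_le (n : ℕ) (X : Finset ℕ) : len n X ≤ n + 1 := Finset.sup_le fun _ _ => Nat.sub_le _ _

theorem len_mem {n y : ℕ} {X : Finset ℕ} (h : y ∈ X) : n + 1 ≤ y + len n X := by
  have h1 : n + 1 - y ≤ len n X := Finset.le_sup (f := fun y => n + 1 - y) h
  omega

theorem len_att {n : ℕ} {X : Finset ℕ} (hX : ∀ y ∈ X, y ≤ n) (h : 0 < len n X) :
    ∃ y ∈ X, y + len n X = n + 1 := by
  have hne : X.Nonempty := by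
    rw [Finset.nonempty_iff_ne_empty]
    rintro rfl
    rw [len_empty] at h
    omega
  obtain ⟨y, hy, h1⟩ := Finset.exists_mem_eq_sup X hne fun y => n + 1 - y
  refine ⟨y, hy, ?_⟩
  have h2 : len n X = n + 1 - y := h1
  have := hX y hy
  omega

/-- The counting function of a row of `kB`. -/
def cnt (B : Finset (ℕ × ℕ)) (k r q : ℕ) : ℕ := ((row (k • B) r).filter (· < q)).card

theorem cnt_mono {B : Finset (ℕ × ℕ)} {k r q q' : ℕ} (h : q ≤ q') : cnt B k r q ≤ cnt B k r q' := by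
  refine Finset.card_le_card ?_
  intro x hx
  rw [Finset.mem_filter] at hx ⊢
  exact ⟨hx.1, by omega⟩

theorem cnt_zero {B : Finset (ℕ × ℕ)} {k r : ℕ} : cnt B k r 0 = 0 := by
  unfold cnt
  rw [Finset.card_eq_zero, Finset.filter_eq_empty_iff]
  intro x _
  omega

section

variable {n k : ℕ} {B : Finset (ℕ × ℕ)} {X : ℕ → Finset ℕ}

theorem img_sub {j l y q : ℕ} (hl : l ≤ j) (hy : y ∈ X l) (hq : y + q ≤ n + 1) :
    ((row (k • B) (j - l)).filter (· < q)).image (fun z => y + z) ⊆ T n B k X j := by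
  intro z hz
  obtain ⟨b, hb, rfl⟩ := Finset.mem_image.1 hz
  rw [Finset.mem_filter] at hb
  rw [mem_T]
  exact ⟨⟨l, hl, Finset.add_mem_add hy hb.1⟩, by omega⟩

theorem img_card (S : Finset ℕ) (y : ℕ) : (S.image fun z => y + z).card = S.card :=
  Finset.card_image_of_injective _ fun _ _ h => Nat.add_left_cancel h

theorem cov1 (hX : ∀ j, ∀ y ∈ X j, y ≤ n) {j l : ℕ} (hl : l ≤ j) :
    cnt B k (j - l) (len n (X l)) ≤ (T n B k X j).card := by
  rcases Nat.eq_zero_or_pos (len n (X l)) with h | h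
  · rw [h, cnt_zero]
    exact Nat.zero_le _
  · obtain ⟨y, hy, hyl⟩ := len_att (hX l) h
    have h1 := Finset.card_le_card (img_sub (n := n) (k := k) (B := B) hl hy hyl.le)
    rw [img_card] at h1
    exact h1

theorem cov2 (hX : ∀ j, ∀ y ∈ X j, y ≤ n) (h : len n (X 1) ≤ len n (X 0)) :
    cnt B k 1 (len n (X 0) - len n (X 1)) + cnt B k 0 (len n (X 1)) ≤ (T n B k X 1).card := by
  rcases Nat.eq_zero_or_pos (len n (X 1)) with h1 | h1
  · rw [h1, cnt_zero, Nat.sub_zero, add_zero]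
    exact cov1 hX (Nat.zero_le 1)
  · obtain ⟨y, hy, hyl⟩ := len_att (hX 1) h1
    obtain ⟨z, hz, hzl⟩ := len_att (hX 0) (lt_of_lt_of_le h1 h)
    have h2 := img_sub (n := n) (k := k) (B := B) (X := X) (j := 1) (l := 0)
      (q := len n (X 0) - len n (X 1)) (Nat.zero_le 1) hz (by omega)
    have h3 := img_sub (n := n) (k := k) (B := B) (X := X) (j := 1) (l := 1) (q := len n (X 1))
      le_rfl hy hyl.le
    have hd : Disjoint (((row (k • B) (1 - 0)).filter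
        (· < len n (X 0) - len n (X 1))).image (fun w => z + w))
        (((row (k • B) (1 - 1)).filter (· < len n (X 1))).image (fun w => y + w)) := by
      rw [Finset.disjoint_left]
      intro w hw hw'
      obtain ⟨a, ha, rfl⟩ := Finset.mem_image.1 hw
      obtain ⟨b, hb, hab⟩ := Finset.mem_image.1 hw'
      have h4 := (Finset.mem_filter.1 ha).2
      omega
    have h4 := Finset.card_le_card (Finset.union_subset h2 h3)
    rw [Finset.card_union_of_disjoint hd, img_card, img_card] at h4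
    exact h4

end

/-- The geometric mean. -/
theorem gmean (k k' : ℕ) (hk' : 0 < k') (hk : k' ≤ k) (α β ρ κ : ℝ) (hα : 0 ≤ α) (hβ : 0 ≤ β)
    (hρ : 0 < ρ) (hκ : 0 < κ) :
    (α * κ ^ k') ^ (1 - (k' : ℝ) / (k : ℝ)) * (β * ((ρ * κ) ^ (k - k'))⁻¹) ^ ((k' : ℝ) / (k : ℝ)) =
      α ^ (1 - (k' : ℝ) / (k : ℝ)) * β ^ ((k' : ℝ) / (k : ℝ)) *
      (ρ ^ (((k : ℝ) - (k' : ℝ)) * (k' : ℝ) / (k : ℝ)))⁻¹ := by
  have hk'R : (0 : ℝ) < (k' : ℝ) := by exact_mod_cast hk'
  have hkR : (0 : ℝ) < (k : ℝ) := by exact_mod_cast lt_of_lt_of_le hk' hk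
  obtain ⟨e, he⟩ : ∃ e, e = ((k : ℝ) - (k' : ℝ)) * (k' : ℝ) / (k : ℝ) := ⟨_, rfl⟩
  have h2 : (κ ^ k') ^ (1 - (k' : ℝ) / (k : ℝ)) = κ ^ e := by
    rw [← Real.rpow_natCast, ← Real.rpow_mul hκ.le, he]
    congr 1
    field_simp
  have h3 : ((ρ * κ) ^ (k - k'))⁻¹ ^ ((k' : ℝ) / (k : ℝ)) = (ρ ^ e)⁻¹ * (κ ^ e)⁻¹ := by
    rw [Real.inv_rpow (by positivity), ← Real.rpow_natCast, ← Real.rpow_mul (by positivity),
      Nat.cast_sub hk, (by rw [he]; ring : ((k : ℝ) - (k' : ℝ)) * ((k' : ℝ) / (k : ℝ)) = e),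
      Real.mul_rpow hρ.le hκ.le, mul_inv]
  rw [Real.mul_rpow hα (by positivity), Real.mul_rpow hβ (by positivity), h2, h3, ← he]
  have h4 : κ ^ e ≠ 0 := (Real.rpow_pos_of_pos hκ _).ne'
  field_simp

theorem box_rho (n k k' : ℕ) (ρ α β : ℝ) (A : ℕ → Finset ℕ) (B : Finset (ℕ × ℕ))
    (hρ : 1 < ρ) (hA : ∀ j, ∀ y ∈ A j, y ≤ n) (h0 : ((0, 0) : ℕ × ℕ) ∈ B) (hA0 : 0 ∈ A 0)
    (hα : 0 < α) (hβ : 0 < β) (hk' : 0 < k') (hkk : k' < k)
    (hdA0 : ∀ z ≤ n, α * ((z : ℝ) + 1) ≤ (((A 0).filter (· ≤ z)).card : ℝ))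
    (hdA1 : ∀ z ≤ n, α * (2 * ((z : ℝ) + 1)) ≤
      (((A 0).filter (· ≤ z)).card : ℝ) + (((A 1).filter (· ≤ z)).card : ℝ))
    (hC : ∀ u v : ℕ, v ≤ u → u ≤ n + 1 → β * ((u : ℝ) + (v : ℝ)) ≤
      (cnt B k 0 u : ℝ) + (cnt B k 1 v : ℝ)) :
    α ^ (1 - (k' : ℝ) / (k : ℝ)) * β ^ ((k' : ℝ) / (k : ℝ)) *
      (ρ ^ (((k : ℝ) - (k' : ℝ)) * (k' : ℝ) / (k : ℝ)))⁻¹ * (2 * ((n : ℝ) + 1)) ≤
      ((T n B k' A 0).card : ℝ) + ((T n B k' A 1).card : ℝ) := by
  classical
  have hρ0 : (0 : ℝ) < ρ := by linarith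
  have hk'R : (0 : ℝ) < (k' : ℝ) := by exact_mod_cast hk'
  have hkkR : (k' : ℝ) < (k : ℝ) := by exact_mod_cast hkk
  have hkR : (0 : ℝ) < (k : ℝ) := hk'R.trans hkkR
  obtain ⟨γ, hγd⟩ : ∃ γ, γ = α ^ (1 - (k' : ℝ) / (k : ℝ)) * β ^ ((k' : ℝ) / (k : ℝ)) *
      (ρ ^ (((k : ℝ) - (k' : ℝ)) * (k' : ℝ) / (k : ℝ)))⁻¹ := ⟨_, rfl⟩
  have hγ : 0 < γ := by
    rw [hγd]
    positivity
  rw [← hγd]
  obtain ⟨H, hHd⟩ : ∃ H : ℕ → ℕ, H = fun l => k - (1 - l) := ⟨_, rfl⟩
  have hH : ∀ l, 0 < H l := by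
    intro l
    rw [hHd]
    show 0 < k - (1 - l)
    omega
  have hH' : ∀ l, k' ≤ H l := by
    intro l
    rw [hHd]
    show k' ≤ k - (1 - l)
    omega
  obtain ⟨x, hx0, hx⟩ := exists_chain n ρ H A B
  obtain ⟨L, hL⟩ := x_end hρ hH hx
  have hLx : x L = A := funext hL
  have hxn : ∀ a j, ∀ y ∈ x a j, y ≤ n := fun a j y hy => hA j y (x_sub hx0 hx a j hy)
  have hst : ∀ i ≤ 1, ∀ a, ((T n B k (x (a + 1)) i).card : ℝ) - ((T n B k (x a) i).card : ℝ) ≤
      (ρ ^ (a + 1)) ^ (k - k') * (((T n B k' (x (a + 1)) i).card : ℝ) -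
        ((T n B k' (x a) i).card : ℝ)) := by
    intro i hi a
    refine T_step' (A := A) (I := 1) (by positivity) hk' hi (by omega) (by omega) (fun l _ => ?_)
      (fun l => (hx a l).1)
    have h3 := hx a l
    rw [hHd] at h3
    exact h3
  have hms : ∀ i a, (ρ ^ a) ^ k' * (((x (a + 1) i).card : ℝ) - ((x a i).card : ℝ)) ≤
      ((T n B k' (x (a + 1)) i).card : ℝ) - ((T n B k' (x a) i).card : ℝ) := by
    intro i a
    exact mass_stage hρ hA h0 hx0 hx a i (hH' i) (hH i)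
  have hpair : ∀ a, 0 ≤ (ρ ^ a) ^ k' ∧ 0 < (ρ ^ a) ^ k' := fun a => ⟨by positivity, by positivity⟩
  have hstage_m : ∀ i a, α * (ρ ^ a) ^ k' / γ * (α⁻¹ * (((x (a + 1) i).card : ℝ) -
      ((x a i).card : ℝ))) ≤ (((T n B k' (x (a + 1)) i).card : ℝ) -
        ((T n B k' (x a) i).card : ℝ)) / γ := by
    intro i a
    rw [le_div_iff₀ hγ]
    refine le_trans (le_of_eq ?_) (hms i a)
    field_simp
  have hstage_c : ∀ i ≤ 1, ∀ a, β * ((ρ * ρ ^ a) ^ (k - k'))⁻¹ / γ *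
      (((T n B k (x (a + 1)) i).card : ℝ) / β - ((T n B k (x a) i).card : ℝ) / β) ≤
      (((T n B k' (x (a + 1)) i).card : ℝ) - ((T n B k' (x a) i).card : ℝ)) / γ := by
    intro i hi a
    rw [le_div_iff₀ hγ]
    have h1 := hst i hi a
    rw [← inv_mul_le_iff₀ (by positivity)] at h1
    refine le_trans (le_of_eq ?_) h1
    have h2 : ρ * ρ ^ a = ρ ^ (a + 1) := by ring
    rw [h2]
    field_simp
  have hcov : ∀ a, (cnt B k 0 (len n (x a 0)) : ℝ) ≤ ((T n B k (x a) 0).card : ℝ) ∧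
      (cnt B k 1 (len n (x a 0)) : ℝ) ≤ ((T n B k (x a) 1).card : ℝ) ∧
      (cnt B k 0 (len n (x a 1)) : ℝ) ≤ ((T n B k (x a) 1).card : ℝ) := by
    intro a
    have h1 := cov1 (n := n) (k := k) (B := B) (X := x a) (hxn a) (j := 0) (l := 0) le_rfl
    have h2 := cov1 (n := n) (k := k) (B := B) (X := x a) (hxn a) (j := 1) (l := 0) (Nat.zero_le 1)
    have h3 := cov1 (n := n) (k := k) (B := B) (X := x a) (hxn a) (j := 1) (l := 1) le_rfl
    exact ⟨by exact_mod_cast h1, by exact_mod_cast h2, by exact_mod_cast h3⟩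
  have hcov' : ∀ a, len n (x a 1) ≤ len n (x a 0) →
      (cnt B k 1 (len n (x a 0) - len n (x a 1)) : ℝ) + (cnt B k 0 (len n (x a 1)) : ℝ) ≤
      ((T n B k (x a) 1).card : ℝ) := by
    intro a h
    exact_mod_cast cov2 (n := n) (k := k) (B := B) (X := x a) (hxn a) h
  have hC0 : ∀ u ≤ n + 1, β * (u : ℝ) ≤ (cnt B k 0 u : ℝ) := by
    intro u hu
    have h1 := hC u 0 (Nat.zero_le _) hu
    rw [cnt_zero] at h1
    simpa using h1
  have hT0 : ∀ c i, ((T n B c (x 0) i).card : ℝ) = 0 := by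
    intro c i
    rw [T_empty hx0]
    simp
  have hW0' : ∀ a, 0 < (ρ * ρ ^ a) ^ (k - k') := fun a => by positivity
  have hgm : ∀ a, (α * (ρ ^ a) ^ k') ^ (1 - (k' : ℝ) / (k : ℝ)) *
      (β * ((ρ * ρ ^ a) ^ (k - k'))⁻¹) ^ ((k' : ℝ) / (k : ℝ)) = γ := by
    intro a
    rw [hγd]
    exact gmean k k' hk' hkk.le α β ρ (ρ ^ a) hα.le hβ.le hρ0 (by positivity)
  let D : Data n L ((k : ℝ) / (k' : ℝ)) α⁻¹ :=
    { U := fun a => α * (ρ ^ a) ^ k' / γ
      W := fun a => β * ((ρ * ρ ^ a) ^ (k - k'))⁻¹ / γ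
      X0 := fun a => x a 0
      X1 := fun a => x a 1
      p0 := fun a => len n (x a 0)
      p1 := fun a => len n (x a 1)
      G0 := fun a => ((T n B k (x a) 0).card : ℝ) / β
      G1 := fun a => ((T n B k (x a) 1).card : ℝ) / β
      δ0 := fun a => (((T n B k' (x (a + 1)) 0).card : ℝ) - ((T n B k' (x a) 0).card : ℝ)) / γ
      δ1 := fun a => (((T n B k' (x (a + 1)) 1).card : ℝ) - ((T n B k' (x a) 1).card : ℝ)) / γ
      hs := (one_lt_div hk'R).2 hkkR
      hw := (inv_pos.2 hα).le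
      hU := by
        intro a b hab
        have h1 : (ρ ^ a) ^ k' ≤ (ρ ^ b) ^ k' :=
          pow_le_pow_left₀ (by positivity) (pow_le_pow_right₀ hρ.le hab) k'
        show α * (ρ ^ a) ^ k' / γ ≤ α * (ρ ^ b) ^ k' / γ
        gcongr
      hW := by
        intro a b hab
        have h1 : ρ ^ a ≤ ρ ^ b := pow_le_pow_right₀ hρ.le hab
        have h2 : (ρ * ρ ^ a) ^ (k - k') ≤ (ρ * ρ ^ b) ^ (k - k') :=
          pow_le_pow_left₀ (by positivity) (mul_le_mul_of_nonneg_left h1 hρ0.le) (k - k')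
        have h3 := inv_anti₀ (hW0' a) h2
        show β * ((ρ * ρ ^ b) ^ (k - k'))⁻¹ / γ ≤ β * ((ρ * ρ ^ a) ^ (k - k'))⁻¹ / γ
        gcongr
      hU0 := fun a => by positivity
      hW0 := fun a => by positivity
      hUW := by
        intro a
        have h1 := amgm k k' hk' hkk.le α β ρ (ρ ^ a) hα.le hβ.le hρ0 (by positivity)
        rw [← hγd] at h1
        have h2 : ((k : ℝ) / (k' : ℝ) - 1) * (α * (ρ ^ a) ^ k' / γ) + β * ((ρ * ρ ^ a) ^ (k - k'))⁻¹ / γ =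
            (((k : ℝ) / (k' : ℝ) - 1) * (α * (ρ ^ a) ^ k') + β * ((ρ * ρ ^ a) ^ (k - k'))⁻¹) / γ := by
          ring
        rw [h2, le_div_iff₀ hγ]
        exact h1
      hUW1 := by
        intro a h1
        rw [one_le_div hγ] at h1
        rw [div_le_one hγ]
        by_contra h2
        push Not at h2
        have h3 : γ ^ (1 - (k' : ℝ) / (k : ℝ)) ≤ (α * (ρ ^ a) ^ k') ^ (1 - (k' : ℝ) / (k : ℝ)) :=
          Real.rpow_le_rpow hγ.le h1 (by
            have := (div_lt_one hkR).2 hkkR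
            linarith)
        have h4 : γ ^ ((k' : ℝ) / (k : ℝ)) <
            (β * ((ρ * ρ ^ a) ^ (k - k'))⁻¹) ^ ((k' : ℝ) / (k : ℝ)) :=
          Real.rpow_lt_rpow hγ.le h2 (by positivity)
        have h5 : γ ^ (1 - (k' : ℝ) / (k : ℝ)) * γ ^ ((k' : ℝ) / (k : ℝ)) = γ := by
          rw [← Real.rpow_add hγ, sub_add_cancel, Real.rpow_one]
        have h6 := mul_lt_mul_of_le_of_lt_of_pos_of_nonneg h3 h4 (Real.rpow_pos_of_pos hγ _)
          (Real.rpow_pos_of_pos (hγ.trans h2) _).le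
        rw [h5, hgm a] at h6
        exact lt_irrefl _ h6
      hX0 := fun a b hab => x_mono hx hab 0
      hX1 := fun a b hab => x_mono hx hab 1
      hX00 := hx0 0
      hX10 := hx0 1
      hX0n := fun y hy => hxn L 0 y hy
      hX1n := fun y hy => hxn L 1 y hy
      hp0 := fun a b hab => len_mono (x_mono hx hab 0)
      hp1 := fun a b hab => len_mono (x_mono hx hab 1)
      hp00 := by
        show len n (x 0 0) = 0
        rw [hx0, len_empty]
      hp10 := by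
        show len n (x 0 1) = 0
        rw [hx0, len_empty]
      hp0n := fun a => len_le n _
      hp1n := fun a => len_le n _
      hp0L := by
        show len n (x L 0) = n + 1
        have h1 := len_le n (x L 0)
        have h2 : n + 1 ≤ 0 + len n (x L 0) := len_mem (by rw [hL]; exact hA0)
        omega
      hXp0 := fun a y hy => len_mem hy
      hXp1 := fun a y hy => len_mem hy
      hm0 := by
        intro z hz
        show (z : ℝ) + 1 ≤ α⁻¹ * (((x L 0).filter (· ≤ z)).card : ℝ)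
        rw [hL, le_inv_mul_iff₀ hα]
        exact hdA0 z hz
      hm1 := by
        intro z hz
        show 2 * ((z : ℝ) + 1) ≤ α⁻¹ * ((((x L 0).filter (· ≤ z)).card : ℝ) +
          (((x L 1).filter (· ≤ z)).card : ℝ))
        rw [hL, hL, le_inv_mul_iff₀ hα]
        exact hdA1 z hz
      hG00 := by
        show ((T n B k (x 0) 0).card : ℝ) / β = 0
        rw [hT0, zero_div]
      hG10 := by
        show ((T n B k (x 0) 1).card : ℝ) / β = 0
        rw [hT0, zero_div]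
      hG0 := by
        intro a _
        show (len n (x a 0) : ℝ) ≤ ((T n B k (x a) 0).card : ℝ) / β
        rw [le_div_iff₀ hβ, mul_comm]
        exact (hC0 _ (len_le n _)).trans (hcov a).1
      hGt := by
        intro a _
        show (len n (x a 0) : ℝ) + ((max (len n (x a 0)) (len n (x a 1)) : ℕ) : ℝ) ≤
          ((T n B k (x a) 0).card : ℝ) / β + ((T n B k (x a) 1).card : ℝ) / β
        rw [← add_div, le_div_iff₀ hβ, mul_comm]
        obtain ⟨h1, h2, h3⟩ := hcov a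
        rcases le_total (len n (x a 1)) (len n (x a 0)) with h | h
        · rw [max_eq_left h]
          have h4 := hC (len n (x a 0)) (len n (x a 0)) le_rfl (len_le n _)
          linarith
        · rw [max_eq_right h]
          have h4 := hC0 (len n (x a 0)) (len_le n _)
          have h5 := hC0 (len n (x a 1)) (len_le n _)
          linarith
      hGg := by
        intro a _ h
        show ((max (len n (x a 0)) (len n (x a 1)) : ℕ) : ℝ) ≤ ((T n B k (x a) 1).card : ℝ) / β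
        rw [le_div_iff₀ hβ, mul_comm]
        obtain ⟨h1, h2, h3⟩ := hcov a
        rcases le_total (len n (x a 1)) (len n (x a 0)) with h' | h'
        · rw [max_eq_left h']
          have h'' : len n (x a 0) ≤ 2 * len n (x a 1) := h
          have h4 := hC (len n (x a 1)) (len n (x a 0) - len n (x a 1)) (by omega) (len_le n _)
          have h5 := hcov' a h'
          rw [Nat.cast_sub h'] at h4
          have h6 : β * ((len n (x a 1) : ℝ) + ((len n (x a 0) : ℝ) - (len n (x a 1) : ℝ))) =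
              β * (len n (x a 0) : ℝ) := by ring
          rw [h6] at h4
          linarith
        · rw [max_eq_right h']
          exact (hC0 _ (len_le n _)).trans h3
      hGf := by
        intro a _ h
        show 2 * (len n (x a 1) : ℝ) ≤ ((T n B k (x a) 1).card : ℝ) / β
        rw [le_div_iff₀ hβ, mul_comm]
        have h' : 2 * len n (x a 1) < len n (x a 0) := h
        have h4 := hC (len n (x a 1)) (len n (x a 1)) le_rfl (len_le n _)
        have h5 := hcov' a (by omega)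
        have h6 : (cnt B k 1 (len n (x a 1)) : ℝ) ≤
            (cnt B k 1 (len n (x a 0) - len n (x a 1)) : ℝ) := by
          exact_mod_cast cnt_mono (by omega)
        linarith
      hδm0 := fun a _ => hstage_m 0 a
      hδm1 := fun a _ => hstage_m 1 a
      hδc0 := fun a _ => hstage_c 0 (Nat.zero_le 1) a
      hδc1 := fun a _ => hstage_c 1 le_rfl a }
  have hv := value D (by
    obtain ⟨a, ha⟩ := pow_unbounded_of_one_lt (γ / α) hρ
    refine ⟨a, ?_⟩
    show 1 ≤ α * (ρ ^ a) ^ k' / γ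
    rw [one_le_div hγ]
    rw [div_lt_iff₀ hα] at ha
    have h1 : ρ ^ a ≤ (ρ ^ a) ^ k' := le_self_pow₀ (one_le_pow₀ hρ.le) (by omega)
    have h2 := mul_le_mul_of_nonneg_left h1 hα.le
    linarith)
  have hs : ∀ i, ∑ a ∈ range L, (((T n B k' (x (a + 1)) i).card : ℝ) -
      ((T n B k' (x a) i).card : ℝ)) / γ = ((T n B k' A i).card : ℝ) / γ := by
    intro i
    rw [← Finset.sum_div, Finset.sum_range_sub (fun a => ((T n B k' (x a) i).card : ℝ)), hLx, hT0,
      sub_zero]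
  have hv' : 2 * ((n : ℝ) + 1) ≤ ((T n B k' A 0).card : ℝ) / γ + ((T n B k' A 1).card : ℝ) / γ := by
    rw [← hs 0, ← hs 1]
    exact hv
  rw [← add_div, le_div_iff₀ hγ] at hv'
  linarith

theorem box (n k k' : ℕ) (α β : ℝ) (A : ℕ → Finset ℕ) (B : Finset (ℕ × ℕ))
    (hA : ∀ j, ∀ y ∈ A j, y ≤ n) (h0 : ((0, 0) : ℕ × ℕ) ∈ B) (hA0 : 0 ∈ A 0)
    (hα : 0 < α) (hβ : 0 < β) (hk' : 0 < k') (hkk : k' < k)
    (hdA0 : ∀ z ≤ n, α * ((z : ℝ) + 1) ≤ (((A 0).filter (· ≤ z)).card : ℝ))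
    (hdA1 : ∀ z ≤ n, α * (2 * ((z : ℝ) + 1)) ≤
      (((A 0).filter (· ≤ z)).card : ℝ) + (((A 1).filter (· ≤ z)).card : ℝ))
    (hC : ∀ u v : ℕ, v ≤ u → u ≤ n + 1 → β * ((u : ℝ) + (v : ℝ)) ≤
      (cnt B k 0 u : ℝ) + (cnt B k 1 v : ℝ)) :
    α ^ (1 - (k' : ℝ) / (k : ℝ)) * β ^ ((k' : ℝ) / (k : ℝ)) * (2 * ((n : ℝ) + 1)) ≤
      ((T n B k' A 0).card : ℝ) + ((T n B k' A 1).card : ℝ) := by
  obtain ⟨e, he⟩ : ∃ e, e = ((k : ℝ) - (k' : ℝ)) * (k' : ℝ) / (k : ℝ) := ⟨_, rfl⟩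
  have h1 : Tendsto (fun ρ : ℝ => α ^ (1 - (k' : ℝ) / (k : ℝ)) * β ^ ((k' : ℝ) / (k : ℝ)) *
      (ρ ^ e)⁻¹ * (2 * ((n : ℝ) + 1))) (𝓝[>] 1)
      (𝓝 (α ^ (1 - (k' : ℝ) / (k : ℝ)) * β ^ ((k' : ℝ) / (k : ℝ)) *
      ((1 : ℝ) ^ e)⁻¹ * (2 * ((n : ℝ) + 1)))) := by
    have h2 : ContinuousAt (fun ρ : ℝ => ρ ^ e) 1 := Real.continuousAt_rpow_const 1 e (Or.inl one_ne_zero)
    have h3 : ContinuousAt (fun ρ : ℝ => (ρ ^ e)⁻¹) 1 := h2.inv₀ (by rw [Real.one_rpow]; exact one_ne_zero)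
    exact ((h3.tendsto.const_mul _).mul_const _).mono_left nhdsWithin_le_nhds
  rw [Real.one_rpow, inv_one, mul_one] at h1
  refine le_of_tendsto h1 ?_
  filter_upwards [self_mem_nhdsWithin] with ρ hρ
  have h2 := box_rho n k k' ρ α β A B hρ hA h0 hA0 hα hβ hk' hkk hdA0 hdA1 hC
  rw [← he] at h2
  exact h2

end Pool.Agent.Lib_helper30.KB
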