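import Pool.Agent.Lib_helper30.KB.Duals

/-!
# The three cases
-/

set_option autoImplicit false

open Finset

namespace Pool.Agent.Lib_helper30.KB

theorem lam_le_lam {t t' : ℝ} (ht0 : 0 ≤ t) (h : t ≤ t') (a1 : ℕ) {b b' : ℕ} (hb : b ≤ b') (a : ℕ) :
    lam t a1 b a ≤ lam t' a1 b' a := by
  unfold lam
  split_ifs <;> first | linarith | omega

theorem lam_le_mid {t : ℝ} (ht0 : 0 ≤ t) {a1 b a : ℕ} (h : a1 ≤ a) : lam t a1 b a ≤ t := by
  unfold lam
  split_ifs <;> first | linarith | omega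

section

variable {n L : ℕ} {s w : ℝ}

theorem Data.entries (D : Data n L s w) : ∃ ι m : ℕ → ℕ,
    (∀ z ≤ n, ∀ a, ι z < a → n + 1 ≤ z + D.p0 a) ∧ (∀ z ≤ n, ∀ a ≤ ι z, z + D.p0 a < n + 1) ∧
    (∀ z ≤ n, ∀ a, m z < a → n + 1 ≤ z + max (D.p0 a) (D.p1 a)) ∧
    (∀ z ≤ n, ∀ a ≤ m z, z + max (D.p0 a) (D.p1 a) < n + 1) ∧
    (∀ z z', z ≤ z' → z' ≤ n → ι z' ≤ ι z) ∧ (∀ z z', z ≤ z' → z' ≤ n → m z' ≤ m z) ∧
    ∀ z ≤ n, m z ≤ ι z := by
  obtain ⟨ι, h1, h2, h3⟩ := entry n L D.p0 D.hp0 D.hp00 D.hp0L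
  obtain ⟨m, h4, h5, h6⟩ := entry n L (fun a => max (D.p0 a) (D.p1 a))
    (fun a b hab => max_le_max (D.hp0 hab) (D.hp1 hab)) (by
      show max (D.p0 0) (D.p1 0) = 0
      rw [D.hp00, D.hp10]; rfl) (by
      show max (D.p0 L) (D.p1 L) = n + 1
      rw [D.hp0L]
      exact max_eq_left (D.hp1n L))
  refine ⟨ι, m, h1, h2, h4, h5, h3, h6, ?_⟩
  intro z hz
  by_contra h
  push Not at h
  have h7 := h1 z hz _ h
  have h8 := h5 z hz (m z) le_rfl
  have h9 := le_max_left (D.p0 (m z)) (D.p1 (m z))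
  omega

theorem Data.W_ge (D : Data n L s w) {a : ℕ} (h : D.U a < 1) : 1 ≤ D.W a := by
  have h1 := D.hUW a
  have h2 := mul_le_mul_of_nonneg_left h.le (by linarith [D.hs] : (0 : ℝ) ≤ s - 1)
  linarith

/-- The levels before `a1`. -/
theorem Data.low (D : Data n L s w) {t0 t1 : ℝ} (h0 : 0 ≤ t0) (h01 : t0 ≤ t1) (h1 : t1 ≤ 1)
    {a1 b0 b1 : ℕ} (hb : b0 ≤ b1) {a : ℕ} (ha : a < a1) (haL : a < L) :
    0 ≤ (lam t0 a1 b0 a * D.W a - lam t0 a1 b0 (a + 1) * D.W (a + 1)) *
      (D.G0 (a + 1) - (D.p0 (a + 1) : ℝ)) +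
      (lam t1 a1 b1 a * D.W a - lam t1 a1 b1 (a + 1) * D.W (a + 1)) *
      (D.G1 (a + 1) - ((max (D.p0 (a + 1)) (D.p1 (a + 1)) : ℕ) : ℝ)) := by
  have h2 := D.hG0 (a + 1) (by omega)
  have h3 := D.hGt (a + 1) (by omega)
  have h4 : 0 ≤ lam t1 a1 b1 a * D.W a - lam t1 a1 b1 (a + 1) * D.W (a + 1) :=
    sub_nonneg.2 (Q_anti (h0.trans h01) h1 a1 b1 D.hW D.hW0 (Nat.le_succ a))
  have h5 : lam t1 a1 b1 a * D.W a - lam t1 a1 b1 (a + 1) * D.W (a + 1) ≤
      lam t0 a1 b0 a * D.W a - lam t0 a1 b0 (a + 1) * D.W (a + 1) := by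
    rw [lam_lt ha, lam_lt ha]
    have h6 := mul_le_mul_of_nonneg_right (lam_le_lam h0 h01 a1 hb (a + 1)) (D.hW0 (a + 1))
    linarith
  obtain ⟨x, hx⟩ : ∃ x, x = lam t0 a1 b0 a * D.W a - lam t0 a1 b0 (a + 1) * D.W (a + 1) := ⟨_, rfl⟩
  obtain ⟨y, hy⟩ : ∃ y, y = lam t1 a1 b1 a * D.W a - lam t1 a1 b1 (a + 1) * D.W (a + 1) := ⟨_, rfl⟩
  rw [← hy] at h4
  rw [← hx, ← hy] at h5
  rw [← hx, ← hy]
  have h6 := mul_nonneg (sub_nonneg.2 h5) (sub_nonneg.2 h2)
  have h7 := mul_nonneg h4 (by linarith : 0 ≤ (D.G0 (a + 1) - (D.p0 (a + 1) : ℝ)) +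
    (D.G1 (a + 1) - ((max (D.p0 (a + 1)) (D.p1 (a + 1)) : ℕ) : ℝ)))
  linarith

/-- The good levels. -/
theorem Data.good (D : Data n L s w) {t0 t1 : ℝ} (h0 : 0 ≤ t0) (h0' : t0 ≤ 1) (h1 : 0 ≤ t1) (h1' : t1 ≤ 1)
    {a1 b0 b1 : ℕ} {a : ℕ} (haL : a < L) (hg : D.p0 (a + 1) ≤ 2 * D.p1 (a + 1)) :
    0 ≤ (lam t0 a1 b0 a * D.W a - lam t0 a1 b0 (a + 1) * D.W (a + 1)) *
      (D.G0 (a + 1) - (D.p0 (a + 1) : ℝ)) +
      (lam t1 a1 b1 a * D.W a - lam t1 a1 b1 (a + 1) * D.W (a + 1)) *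
      (D.G1 (a + 1) - ((max (D.p0 (a + 1)) (D.p1 (a + 1)) : ℕ) : ℝ)) := by
  have h2 := D.hG0 (a + 1) (by omega)
  have h3 := D.hGg (a + 1) (by omega) hg
  exact add_nonneg (mul_nonneg (sub_nonneg.2 (Q_anti h0 h0' a1 b0 D.hW D.hW0 (Nat.le_succ a)))
    (sub_nonneg.2 h2)) (mul_nonneg (sub_nonneg.2 (Q_anti h1 h1' a1 b1 D.hW D.hW0 (Nat.le_succ a)))
    (sub_nonneg.2 h3))

/-- Case A: the critical state has the second row behind the first one. -/
theorem caseA (D : Data n L s w) (c : ℕ) (hcL : c ≤ L) (hc : ∀ a < c, D.U a < 1)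
    (hc' : 1 ≤ D.U c ∨ c = L) (hp : D.p1 c ≤ D.p0 c) :
    2 * ((n : ℝ) + 1) ≤ ∑ a ∈ range L, D.δ0 a + ∑ a ∈ range L, D.δ1 a := by
  classical
  obtain ⟨ι, m, h1, h2, h3, h4, h5, h6, h7⟩ := D.entries
  have hU : ∀ z, z + D.p0 c < n + 1 → 1 ≤ D.U c := by
    intro z hz
    rcases hc' with h | h
    · exact h
    · rw [h, D.hp0L] at hz
      omega
  have key := core D 0 0 le_rfl zero_le_one le_rfl zero_le_one c c c hcL hcL hcL (fun _ => 0)
    (fun _ => 2) (fun _ => 0) (fun z => if z + D.p0 c < n + 1 then 1 else 0) ι m h1 h2 h3 (by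
      intro a ha
      rw [neg_zero]
      rcases Nat.lt_or_ge a c with h | h
      · exact D.low le_rfl le_rfl zero_le_one le_rfl h ha
      · rw [lam_ge h h, lam_ge (by omega) (by omega)]
        simp) (fun _ _ _ => le_rfl) (by
      intro z z' h
      show (if z' + D.p0 c < n + 1 then (1 : ℝ) else 0) ≤ (if z + D.p0 c < n + 1 then (1 : ℝ) else 0)
      by_cases h8 : z' + D.p0 c < n + 1
      · rw [if_pos h8, if_pos (by omega)]
      · rw [if_neg h8]
        split_ifs <;> norm_num) (fun _ => le_rfl) (by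
      intro z
      show 0 ≤ (if z + D.p0 c < n + 1 then (1 : ℝ) else 0)
      split_ifs <;> norm_num) (by
      intro y hy
      show 0 + (if y + D.p0 c < n + 1 then (1 : ℝ) else 0) ≤ _
      have hyn := D.hX0n y hy
      by_cases h8 : y + D.p0 c < n + 1
      · rw [if_pos h8]
        have h9 : c ≤ ι y := by
          by_contra h
          push Not at h
          have := h1 y hyn c h
          omega
        rw [lam_ge h9 h9]
        have h10 := D.hU h9
        have h11 := hU y h8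
        linarith
      · rw [if_neg h8, add_zero]
        exact mul_nonneg (sub_nonneg.2 (lam_le zero_le_one)) (D.hU0 _)) (by
      intro y hy
      show ∃ i0, (∀ a ≤ i0, y ∉ D.X1 a) ∧ (if y + D.p0 c < n + 1 then (1 : ℝ) else 0) ≤ _
      by_cases h8 : y + D.p0 c < n + 1
      · refine ⟨c, ?_, ?_⟩
        · intro a ha hya
          have h9 := D.hXp1 a y hya
          have h10 := D.hp1 ha
          omega
        · rw [if_pos h8, lam_ge le_rfl le_rfl]
          have := hU y h8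
          linarith
      · refine ⟨0, ?_, ?_⟩
        · intro a ha hya
          rw [Nat.le_zero.1 ha, D.hX10] at hya
          simp at hya
        · rw [if_neg h8]
          exact mul_nonneg (sub_nonneg.2 (lam_le zero_le_one)) (D.hU0 _)) (by
      intro z hz
      show (2 : ℝ) ≤ _ + (0 + 2 * (if z + D.p0 c < n + 1 then (1 : ℝ) else 0))
      have h8 : 0 ≤ lam 0 c c (ι z) * D.W (ι z) := mul_nonneg (lam_nonneg le_rfl) (D.hW0 _)
      have h9 : 0 ≤ lam 0 c c (m z) * D.W (m z) := mul_nonneg (lam_nonneg le_rfl) (D.hW0 _)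
      by_cases h10 : z + D.p0 c < n + 1
      · rw [if_pos h10]
        linarith
      · rw [if_neg h10]
        have h11 : ι z < c := by
          by_contra h
          push Not at h
          have := h2 z hz c h
          omega
        have h12 : m z < c := lt_of_le_of_lt (h7 z hz) h11
        rw [lam_lt h11, lam_lt h12]
        have h13 := D.W_ge (hc _ h11)
        have h14 := D.W_ge (hc _ h12)
        linarith)
  refine le_trans (le_of_eq ?_) key
  rw [Finset.sum_const, Finset.card_range, nsmul_eq_mul, Finset.sum_const_zero, sub_zero]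
  push_cast
  ring

/-- Case B1: no far level after `a1`. -/
theorem caseB1 (D : Data n L s w) (a1 : ℕ) (ha1 : a1 ≤ L) (hlow : ∀ a < a1, D.U a < 1)
    (hp : D.p1 a1 ≤ D.p0 a1) (hg : ∀ a, a1 < a → a ≤ L → D.p0 a ≤ 2 * D.p1 a) :
    2 * ((n : ℝ) + 1) ≤ ∑ a ∈ range L, D.δ0 a + ∑ a ∈ range L, D.δ1 a := by
  classical
  obtain ⟨ι, m, h1, h2, h3, h4, h5, h6, h7⟩ := D.entries
  have hs := D.hs
  obtain ⟨t0, ht0⟩ : ∃ t0 : ℝ, t0 = 2 / (s * (s + 1)) := ⟨_, rfl⟩
  obtain ⟨t1, ht1⟩ : ∃ t1 : ℝ, t1 = 2 / (s + 1) := ⟨_, rfl⟩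
  have e1 : (s + 1) * t1 = 2 := by
    rw [ht1]
    field_simp
  have e0 : s * t0 = t1 := by
    rw [ht0, ht1]
    field_simp
  have p0 : 0 ≤ t0 := by
    rw [ht0]
    exact div_nonneg (by norm_num) (mul_nonneg (by linarith) (by linarith))
  have p1 : t0 ≤ t1 := by
    have := mul_le_mul_of_nonneg_right hs.le p0
    linarith
  have p2 : t1 ≤ 1 := by
    rw [ht1, div_le_one (by linarith)]
    linarith
  have hge : ∀ z ≤ n, z + D.p0 a1 < n + 1 → a1 ≤ m z := by
    intro z hz h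
    by_contra h8
    push Not at h8
    have h9 := h3 z hz a1 h8
    rw [max_eq_left hp] at h9
    omega
  have hlt : ∀ z ≤ n, ι z < L := by
    intro z hz
    by_contra h8
    push Not at h8
    have h9 := h2 z hz L h8
    rw [D.hp0L] at h9
    omega
  have hlo : ∀ z ≤ n, ¬ z + D.p0 a1 < n + 1 → ι z < a1 := by
    intro z hz h
    by_contra h8
    push Not at h8
    exact h (h2 z hz a1 h8)
  have key := core D t0 t1 p0 (p1.trans p2) (p0.trans p1) p2 a1 L L ha1 le_rfl le_rfl (fun _ => 0)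
    (fun _ => 2) (fun z => if z + D.p0 a1 < n + 1 then (t1 - t0) * D.U (ι z) else 0)
    (fun z => if z + D.p0 a1 < n + 1 then (1 - t1) * D.U (m z) else 0) ι m h1 h2 h3 (by
      intro a ha
      rw [neg_zero]
      rcases Nat.lt_or_ge a a1 with h | h
      · exact D.low p0 p1 p2 le_rfl h ha
      · exact D.good p0 (p1.trans p2) (p0.trans p1) p2 ha (hg (a + 1) (by omega) (by omega))) (by
      intro z z' h
      show (if z' + D.p0 a1 < n + 1 then (t1 - t0) * D.U (ι z') else 0) ≤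
        (if z + D.p0 a1 < n + 1 then (t1 - t0) * D.U (ι z) else 0)
      by_cases h8 : z' + D.p0 a1 < n + 1
      · rw [if_pos h8, if_pos (by omega)]
        exact mul_le_mul_of_nonneg_left (D.hU (h5 z z' h (by omega))) (sub_nonneg.2 p1)
      · rw [if_neg h8]
        split_ifs
        · exact mul_nonneg (sub_nonneg.2 p1) (D.hU0 _)
        · exact le_rfl) (by
      intro z z' h
      show (if z' + D.p0 a1 < n + 1 then (1 - t1) * D.U (m z') else 0) ≤
        (if z + D.p0 a1 < n + 1 then (1 - t1) * D.U (m z) else 0)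
      by_cases h8 : z' + D.p0 a1 < n + 1
      · rw [if_pos h8, if_pos (by omega)]
        exact mul_le_mul_of_nonneg_left (D.hU (h6 z z' h (by omega))) (sub_nonneg.2 p2)
      · rw [if_neg h8]
        split_ifs
        · exact mul_nonneg (sub_nonneg.2 p2) (D.hU0 _)
        · exact le_rfl) (by
      intro z
      show 0 ≤ (if z + D.p0 a1 < n + 1 then (t1 - t0) * D.U (ι z) else 0)
      split_ifs
      · exact mul_nonneg (sub_nonneg.2 p1) (D.hU0 _)
      · exact le_rfl) (by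
      intro z
      show 0 ≤ (if z + D.p0 a1 < n + 1 then (1 - t1) * D.U (m z) else 0)
      split_ifs
      · exact mul_nonneg (sub_nonneg.2 p2) (D.hU0 _)
      · exact le_rfl) (by
      intro y hy
      show (if y + D.p0 a1 < n + 1 then (t1 - t0) * D.U (ι y) else 0) +
        (if y + D.p0 a1 < n + 1 then (1 - t1) * D.U (m y) else 0) ≤ _
      have hyn := D.hX0n y hy
      by_cases h8 : y + D.p0 a1 < n + 1
      · rw [if_pos h8, if_pos h8]
        have h9 := (hge y hyn h8).trans (h7 y hyn)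
        rw [lam_mid h9 (hlt y hyn)]
        have h10 := mul_le_mul_of_nonneg_left (D.hU (h7 y hyn)) (sub_nonneg.2 p2)
        linarith
      · rw [if_neg h8, if_neg h8, add_zero]
        exact mul_nonneg (sub_nonneg.2 (lam_le (p1.trans p2))) (D.hU0 _)) (by
      intro y hy
      show ∃ i0, (∀ a ≤ i0, y ∉ D.X1 a) ∧
        (if y + D.p0 a1 < n + 1 then (1 - t1) * D.U (m y) else 0) ≤ _
      have hyn := D.hX1n y hy
      by_cases h8 : y + D.p0 a1 < n + 1
      · refine ⟨m y, ?_, ?_⟩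
        · intro a ha hya
          have h9 := D.hXp1 a y hya
          have h10 := h4 y hyn a ha
          have h11 := le_max_right (D.p0 a) (D.p1 a)
          omega
        · rw [if_pos h8, lam_mid (hge y hyn h8) (lt_of_le_of_lt (h7 y hyn) (hlt y hyn))]
      · refine ⟨0, ?_, ?_⟩
        · intro a ha hya
          rw [Nat.le_zero.1 ha, D.hX10] at hya
          simp at hya
        · rw [if_neg h8]
          exact mul_nonneg (sub_nonneg.2 (lam_le p2)) (D.hU0 _)) (by
      intro z hz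
      show (2 : ℝ) ≤ _ + ((if z + D.p0 a1 < n + 1 then (t1 - t0) * D.U (ι z) else 0) +
        2 * (if z + D.p0 a1 < n + 1 then (1 - t1) * D.U (m z) else 0))
      by_cases h10 : z + D.p0 a1 < n + 1
      · rw [if_pos h10, if_pos h10]
        have h9 := hge z hz h10
        rw [lam_mid (h9.trans (h7 z hz)) (hlt z hz), lam_mid h9 (lt_of_le_of_lt (h7 z hz) (hlt z hz))]
        have h11 := mul_le_mul_of_nonneg_left (D.hUW (ι z)) p0
        have h12 := mul_le_mul_of_nonneg_left (D.hUW (m z)) (p0.trans p1)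
        have h13 : t0 * ((s - 1) * D.U (ι z) + D.W (ι z)) = t1 * D.U (ι z) - t0 * D.U (ι z) +
            t0 * D.W (ι z) := by rw [← e0]; ring
        have h14 : t1 * ((s - 1) * D.U (m z) + D.W (m z)) = 2 * D.U (m z) - 2 * t1 * D.U (m z) +
            t1 * D.W (m z) := by
          have : t1 * ((s - 1) * D.U (m z) + D.W (m z)) = ((s + 1) * t1) * D.U (m z) -
            2 * t1 * D.U (m z) + t1 * D.W (m z) := by ring
          rw [this, e1]
        rw [h13] at h11
        rw [h14] at h12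
        linarith
      · rw [if_neg h10, if_neg h10]
        have h11 := hlo z hz h10
        have h12 : m z < a1 := lt_of_le_of_lt (h7 z hz) h11
        rw [lam_lt h11, lam_lt h12]
        have h13 := D.W_ge (hlow _ h11)
        have h14 := D.W_ge (hlow _ h12)
        linarith)
  refine le_trans (le_of_eq ?_) key
  rw [Finset.sum_const, Finset.card_range, nsmul_eq_mul, Finset.sum_const_zero, sub_zero]
  push_cast
  ring

end

end Pool.Agent.Lib_helper30.KB
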