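import Pool.Agent.Lib_helper30.KB.Lp

/-!
# The three choices of the thresholds
-/

set_option autoImplicit false

open Finset

namespace Pool.Agent.Lib_helper30.KB

/-- The data of the linear program for two rows: `U`, `W` are the prices of the mass and of the coverage at the
stages, `p0`, `p1` the lengths which are covered by the first elements of the two rows, `G0`, `G1` the coverage, `δ0`,
`δ1` the gains of the stages. -/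
structure Data (n L : ℕ) (s w : ℝ) where
  U : ℕ → ℝ
  W : ℕ → ℝ
  X0 : ℕ → Finset ℕ
  X1 : ℕ → Finset ℕ
  p0 : ℕ → ℕ
  p1 : ℕ → ℕ
  G0 : ℕ → ℝ
  G1 : ℕ → ℝ
  δ0 : ℕ → ℝ
  δ1 : ℕ → ℝ
  hs : 1 < s
  hw : 0 ≤ w
  hU : Monotone U
  hW : Antitone W
  hU0 : ∀ a, 0 ≤ U a
  hW0 : ∀ a, 0 ≤ W a
  hUW : ∀ a, s ≤ (s - 1) * U a + W a
  hUW1 : ∀ a, 1 ≤ U a → W a ≤ 1
  hX0 : Monotone X0
  hX1 : Monotone X1
  hX00 : X0 0 = ∅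
  hX10 : X1 0 = ∅
  hX0n : ∀ y ∈ X0 L, y ≤ n
  hX1n : ∀ y ∈ X1 L, y ≤ n
  hp0 : Monotone p0
  hp1 : Monotone p1
  hp00 : p0 0 = 0
  hp10 : p1 0 = 0
  hp0n : ∀ a, p0 a ≤ n + 1
  hp1n : ∀ a, p1 a ≤ n + 1
  hp0L : p0 L = n + 1
  hXp0 : ∀ a, ∀ y ∈ X0 a, n + 1 ≤ y + p0 a
  hXp1 : ∀ a, ∀ y ∈ X1 a, n + 1 ≤ y + p1 a
  hm0 : ∀ z ≤ n, (z : ℝ) + 1 ≤ w * (((X0 L).filter (· ≤ z)).card : ℝ)
  hm1 : ∀ z ≤ n, 2 * ((z : ℝ) + 1) ≤ w * ((((X0 L).filter (· ≤ z)).card : ℝ) +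
    (((X1 L).filter (· ≤ z)).card : ℝ))
  hG00 : G0 0 = 0
  hG10 : G1 0 = 0
  hG0 : ∀ a ≤ L, (p0 a : ℝ) ≤ G0 a
  hGt : ∀ a ≤ L, (p0 a : ℝ) + ((max (p0 a) (p1 a) : ℕ) : ℝ) ≤ G0 a + G1 a
  hGg : ∀ a ≤ L, p0 a ≤ 2 * p1 a → ((max (p0 a) (p1 a) : ℕ) : ℝ) ≤ G1 a
  hGf : ∀ a ≤ L, 2 * p1 a < p0 a → 2 * (p1 a : ℝ) ≤ G1 a
  hδm0 : ∀ a < L, U a * (w * (((X0 (a + 1)).card : ℝ) - ((X0 a).card : ℝ))) ≤ δ0 a
  hδm1 : ∀ a < L, U a * (w * (((X1 (a + 1)).card : ℝ) - ((X1 a).card : ℝ))) ≤ δ1 a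
  hδc0 : ∀ a < L, W a * (G0 (a + 1) - G0 a) ≤ δ0 a
  hδc1 : ∀ a < L, W a * (G1 (a + 1) - G1 a) ≤ δ1 a

section

variable {n L : ℕ} {s w : ℝ}

/-- The general dual bound. -/
theorem core (D : Data n L s w) (t0 t1 : ℝ) (ht0 : 0 ≤ t0) (ht0' : t0 ≤ 1) (ht1 : 0 ≤ t1) (ht1' : t1 ≤ 1)
    (a1 b0 b1 : ℕ) (ha1 : a1 ≤ L) (hb0 : b0 ≤ L) (hb1 : b1 ≤ L)
    (E V ψ0 ψ1 : ℕ → ℝ) (ι m : ℕ → ℕ)
    (hι : ∀ z ≤ n, ∀ a, ι z < a → n + 1 ≤ z + D.p0 a)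
    (hι' : ∀ z ≤ n, ∀ a ≤ ι z, z + D.p0 a < n + 1)
    (hm : ∀ z ≤ n, ∀ a, m z < a → n + 1 ≤ z + max (D.p0 a) (D.p1 a))
    (hE : ∀ a < L, -E a ≤ (lam t0 a1 b0 a * D.W a - lam t0 a1 b0 (a + 1) * D.W (a + 1)) *
      (D.G0 (a + 1) - (D.p0 (a + 1) : ℝ)) +
      (lam t1 a1 b1 a * D.W a - lam t1 a1 b1 (a + 1) * D.W (a + 1)) *
      (D.G1 (a + 1) - ((max (D.p0 (a + 1)) (D.p1 (a + 1)) : ℕ) : ℝ)))
    (hψ0 : Antitone ψ0) (hψ1 : Antitone ψ1) (h0 : ∀ z, 0 ≤ ψ0 z) (h0' : ∀ z, 0 ≤ ψ1 z)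
    (hψA : ∀ y ∈ D.X0 L, ψ0 y + ψ1 y ≤ (1 - lam t0 a1 b0 (ι y)) * D.U (ι y))
    (hψB : ∀ y ∈ D.X1 L, ∃ i0, (∀ a ≤ i0, y ∉ D.X1 a) ∧ ψ1 y ≤ (1 - lam t1 a1 b1 i0) * D.U i0)
    (hV : ∀ z ≤ n, V z ≤ lam t0 a1 b0 (ι z) * D.W (ι z) + lam t1 a1 b1 (m z) * D.W (m z) +
      (ψ0 z + 2 * ψ1 z)) :
    ∑ z ∈ range (n + 1), V z - ∑ a ∈ range L, E a ≤
      ∑ a ∈ range L, D.δ0 a + ∑ a ∈ range L, D.δ1 a := by
  obtain ⟨h, hh⟩ : ∃ h : ℕ → ℕ, h = fun a => max (D.p0 a) (D.p1 a) := ⟨_, rfl⟩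
  have hha : ∀ a, max (D.p0 a) (D.p1 a) = h a := fun a => by rw [hh]
  have hhm : Monotone h := by
    intro a b hab
    rw [← hha, ← hha]
    exact max_le_max (D.hp0 hab) (D.hp1 hab)
  have hh0 : h 0 = 0 := by rw [← hha, D.hp00, D.hp10]; rfl
  have hhn : ∀ a, h a ≤ n + 1 := fun a => by rw [← hha]; exact max_le (D.hp0n a) (D.hp1n a)
  have hhL : h L = n + 1 := by
    have h1 := hhn L
    have h2 : D.p0 L ≤ h L := by rw [← hha]; exact le_max_left _ _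
    rw [D.hp0L] at h2
    omega
  obtain ⟨Q0, hQ0⟩ : ∃ Q0 : ℕ → ℝ, Q0 = fun a => lam t0 a1 b0 a * D.W a := ⟨_, rfl⟩
  obtain ⟨Q1, hQ1⟩ : ∃ Q1 : ℕ → ℝ, Q1 = fun a => lam t1 a1 b1 a * D.W a := ⟨_, rfl⟩
  have hq0 : ∀ a, lam t0 a1 b0 a * D.W a = Q0 a := fun a => by rw [hQ0]
  have hq1 : ∀ a, lam t1 a1 b1 a * D.W a = Q1 a := fun a => by rw [hQ1]
  have hQ0a : Antitone Q0 := by rw [hQ0]; exact Q_anti ht0 ht0' a1 b0 D.hW D.hW0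
  have hQ1a : Antitone Q1 := by rw [hQ1]; exact Q_anti ht1 ht1' a1 b1 D.hW D.hW0
  have hQ0L : Q0 L = 0 := by rw [← hq0, lam_ge ha1 hb0, zero_mul]
  have hQ1L : Q1 L = 0 := by rw [← hq1, lam_ge ha1 hb1, zero_mul]
  -- the two rows
  have hr0 := row_dual L w t0 D.hw ht0 ht0' a1 b0 D.U D.W D.hU D.hU0 D.X0 D.hX0 D.hX00 D.G0 D.δ0
    D.hδm0 D.hδc0 (fun y => ψ0 y + ψ1 y) (by
      intro y hy
      refine ⟨ι y, ?_, hψA y hy⟩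
      intro a ha hya
      have h1 := hι' y (D.hX0n y hy) a ha
      have h2 := D.hXp0 a y hya
      omega)
  have hr1 := row_dual L w t1 D.hw ht1 ht1' a1 b1 D.U D.W D.hU D.hU0 D.X1 D.hX1 D.hX10 D.G1 D.δ1
    D.hδm1 D.hδc1 ψ1 hψB
  -- the mass
  have hmass := mass_abel n w (D.X0 L) (D.X1 L) D.hX0n D.hX1n D.hm0 D.hm1 ψ0 ψ1 hψ0 hψ1 h0 h0'
  -- the coverage
  have hc0 := pos_sum n L Q0 hQ0a D.p0 D.hp0 D.hp00 D.hp0n D.hp0L ι hι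
  have hc1 := pos_sum n L Q1 hQ1a h hhm hh0 hhn hhL m (by
    intro z hz a ha
    have h1 := hm z hz a ha
    rw [hha] at h1
    exact h1)
  have hp1 := parts Q0 (fun a => D.G0 a - (D.p0 a : ℝ)) (by
    show D.G0 0 - (D.p0 0 : ℝ) = 0
    rw [D.hG00, D.hp00]; simp) L
  have hp2 := parts Q1 (fun a => D.G1 a - (h a : ℝ)) (by
    show D.G1 0 - (h 0 : ℝ) = 0
    rw [D.hG10, hh0]; simp) L
  rw [hQ0L, zero_mul, zero_add] at hp1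
  rw [hQ1L, zero_mul, zero_add] at hp2
  have hE' : -∑ a ∈ range L, E a ≤ ∑ a ∈ range L, (Q0 a - Q0 (a + 1)) * (D.G0 (a + 1) -
      (D.p0 (a + 1) : ℝ)) + ∑ a ∈ range L, (Q1 a - Q1 (a + 1)) * (D.G1 (a + 1) - (h (a + 1) : ℝ)) := by
    rw [← Finset.sum_neg_distrib, ← Finset.sum_add_distrib]
    refine Finset.sum_le_sum fun a ha => ?_
    have h1 := hE a (Finset.mem_range.1 ha)
    rw [hq0, hq0, hq1, hq1, hha] at h1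
    exact h1
  have hsp1 : ∑ a ∈ range L, Q0 a * ((fun a => D.G0 a - (D.p0 a : ℝ)) (a + 1) -
      (fun a => D.G0 a - (D.p0 a : ℝ)) a) = ∑ a ∈ range L, Q0 a * (D.G0 (a + 1) - D.G0 a) -
      ∑ a ∈ range L, Q0 a * ((D.p0 (a + 1) : ℝ) - (D.p0 a : ℝ)) := by
    rw [← Finset.sum_sub_distrib]
    exact Finset.sum_congr rfl fun a _ => by ring
  have hsp2 : ∑ a ∈ range L, Q1 a * ((fun a => D.G1 a - (h a : ℝ)) (a + 1) -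
      (fun a => D.G1 a - (h a : ℝ)) a) = ∑ a ∈ range L, Q1 a * (D.G1 (a + 1) - D.G1 a) -
      ∑ a ∈ range L, Q1 a * ((h (a + 1) : ℝ) - (h a : ℝ)) := by
    rw [← Finset.sum_sub_distrib]
    exact Finset.sum_congr rfl fun a _ => by ring
  rw [hsp1] at hp1
  rw [hsp2] at hp2
  have hV' : ∑ z ∈ range (n + 1), V z ≤ ∑ z ∈ range (n + 1), Q0 (ι z) + ∑ z ∈ range (n + 1), Q1 (m z) +
      ∑ z ∈ range (n + 1), (ψ0 z + 2 * ψ1 z) := by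
    rw [← Finset.sum_add_distrib, ← Finset.sum_add_distrib]
    refine Finset.sum_le_sum fun z hz => ?_
    have h1 := hV z (by have := Finset.mem_range.1 hz; omega)
    rw [hq0, hq1] at h1
    exact h1
  have hr0' : ∑ a ∈ range L, Q0 a * (D.G0 (a + 1) - D.G0 a) + ∑ y ∈ D.X0 L, w * (ψ0 y + ψ1 y) ≤
      ∑ a ∈ range L, D.δ0 a := by
    rw [hQ0]; exact hr0
  have hr1' : ∑ a ∈ range L, Q1 a * (D.G1 (a + 1) - D.G1 a) + ∑ y ∈ D.X1 L, w * ψ1 y ≤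
      ∑ a ∈ range L, D.δ1 a := by
    rw [hQ1]; exact hr1
  linarith

end

end Pool.Agent.Lib_helper30.KB
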