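import Pool.Agent.Lib_helper30.KB.Cases

/-!
# The case of a far level after the critical one, and the bound
-/

set_option autoImplicit false

open Finset

namespace Pool.Agent.Lib_helper30.KB

section

variable {n L : ℕ} {s w : ℝ}

/-- Case B2: `q` is the first far level after `a1`, and `c < q` is critical. -/
theorem caseB2 (D : Data n L s w) (a1 c q : ℕ) (ha1 : a1 ≤ c) (hcq : c < q) (hq : q ≤ L)
    (hlow : ∀ a < a1, D.U a < 1) (hc : 1 ≤ D.U c)
    (hp : D.p1 a1 ≤ D.p0 a1) (hg : ∀ a, a1 < a → a < q → D.p0 a ≤ 2 * D.p1 a)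
    (hf : 2 * D.p1 q < D.p0 q) (hcp : D.p0 c ≤ D.p1 q) :
    2 * ((n : ℝ) + 1) ≤ ∑ a ∈ range L, D.δ0 a + ∑ a ∈ range L, D.δ1 a := by
  classical
  obtain ⟨ι, m, h1, h2, h3, h4, h5, h6, h7⟩ := D.entries
  have hs := D.hs
  obtain ⟨t0, ht0⟩ : ∃ t0 : ℝ, t0 = 2 / (s * (s + 1)) := ⟨_, rfl⟩
  obtain ⟨t1, ht1⟩ : ∃ t1 : ℝ, t1 = 2 / (s + 1) := ⟨_, rfl⟩
  have e1 : (s + 1) * t1 = 2 := by
    rw [ht1]
    field_simp
  have e0 : s * t0 = t1 := by
    rw [ht0, ht1]
    field_simp
  have p0 : 0 ≤ t0 := by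
    rw [ht0]
    exact div_nonneg (by norm_num) (mul_nonneg (by linarith) (by linarith))
  have p1 : t0 ≤ t1 := by
    have := mul_le_mul_of_nonneg_right hs.le p0
    linarith
  have p2 : t1 ≤ 1 := by
    rw [ht1, div_le_one (by linarith)]
    linarith
  have hca : D.p0 a1 ≤ D.p1 q := (D.hp0 ha1).trans hcp
  have hmaxc : max (D.p0 c) (D.p1 c) ≤ D.p1 q := max_le hcp (D.hp1 hcq.le)
  have hmaxq : max (D.p0 q) (D.p1 q) = D.p0 q := max_eq_left (by omega)
  -- positions which are not covered in the second row at the level `q`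
  have hgec : ∀ z ≤ n, z + D.p1 q < n + 1 → c ≤ m z := by
    intro z hz h
    by_contra h8
    push Not at h8
    have h9 := h3 z hz c h8
    omega
  have hge : ∀ z ≤ n, z + D.p0 a1 < n + 1 → a1 ≤ m z := by
    intro z hz h
    by_contra h8
    push Not at h8
    have h9 := h3 z hz a1 h8
    rw [max_eq_left hp] at h9
    omega
  have hlo : ∀ z ≤ n, ¬ z + D.p0 a1 < n + 1 → ι z < a1 := by
    intro z hz h
    by_contra h8
    push Not at h8
    exact h (h2 z hz a1 h8)
  have hmq : ∀ z ≤ n, n + 1 ≤ z + D.p0 q → m z < q := by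
    intro z hz h
    by_contra h8
    push Not at h8
    have h9 := h4 z hz q h8
    rw [hmaxq] at h9
    omega
  obtain ⟨ψ, hψ⟩ : ∃ ψ : ℕ → ℝ, ψ = fun z => if z + D.p1 q < n + 1 then D.U (m z) else
    if z + D.p0 a1 < n + 1 then (1 - t1) * D.U (m z) else 0 := ⟨_, rfl⟩
  have ψ1 : ∀ z, z + D.p1 q < n + 1 → ψ z = D.U (m z) := by
    intro z h
    rw [hψ]
    exact if_pos h
  have ψ2 : ∀ z, ¬ z + D.p1 q < n + 1 → z + D.p0 a1 < n + 1 → ψ z = (1 - t1) * D.U (m z) := by
    intro z h h'
    rw [hψ]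
    show (if z + D.p1 q < n + 1 then D.U (m z) else
      if z + D.p0 a1 < n + 1 then (1 - t1) * D.U (m z) else 0) = _
    rw [if_neg h, if_pos h']
  have ψ3 : ∀ z, ¬ z + D.p0 a1 < n + 1 → ψ z = 0 := by
    intro z h'
    rw [hψ]
    show (if z + D.p1 q < n + 1 then D.U (m z) else
      if z + D.p0 a1 < n + 1 then (1 - t1) * D.U (m z) else 0) = _
    rw [if_neg (by omega), if_neg h']
  have ψnn : ∀ z, 0 ≤ ψ z := by
    intro z
    by_cases h8 : z + D.p1 q < n + 1
    · rw [ψ1 z h8]
      exact D.hU0 _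
    · by_cases h9 : z + D.p0 a1 < n + 1
      · rw [ψ2 z h8 h9]
        exact mul_nonneg (sub_nonneg.2 p2) (D.hU0 _)
      · rw [ψ3 z h9]
  have ht1U : ∀ a, (1 - t1) * D.U a ≤ D.U a := by
    intro a
    have := mul_nonneg (p0.trans p1) (D.hU0 a)
    linarith
  have key := core D t0 t1 p0 (p1.trans p2) (p0.trans p1) p2 a1 c q (by omega) (by omega) hq
    (fun a => if a + 1 = q then t1 * ((D.p0 q : ℝ) - 2 * (D.p1 q : ℝ)) else 0)
    (fun z => 2 + t1 * ((if n + 1 ≤ z + D.p0 q then (1 : ℝ) else 0) -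
      2 * (if n + 1 ≤ z + D.p1 q then (1 : ℝ) else 0))) (fun _ => 0) ψ ι m h1 h2 h3 (by
      intro a ha
      show -(if a + 1 = q then t1 * ((D.p0 q : ℝ) - 2 * (D.p1 q : ℝ)) else 0) ≤ _
      rcases Nat.lt_or_ge a a1 with h | h
      · rw [if_neg (by omega), neg_zero]
        exact D.low p0 p1 p2 hcq.le h ha
      · rcases Nat.lt_trichotomy (a + 1) q with h8 | h8 | h8
        · rw [if_neg (by omega), neg_zero]
          exact D.good p0 (p1.trans p2) (p0.trans p1) p2 ha (hg (a + 1) (by omega) h8)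
        · rw [if_pos h8]
          have h9 : (2 : ℝ) * (D.p1 q : ℝ) ≤ D.G1 q := D.hGf q hq hf
          have hUa : 1 ≤ D.U a := hc.trans (D.hU (by omega))
          have hWa := D.hUW1 a hUa
          have hWa0 := D.hW0 a
          have h10 : (D.p0 q : ℝ) - 2 * (D.p1 q : ℝ) ≥ 0 := by
            have : (2 : ℝ) * (D.p1 q : ℝ) < (D.p0 q : ℝ) := by exact_mod_cast hf
            linarith
          rw [lam_ge h (by omega), lam_ge (by omega) (by omega), lam_mid h (by omega),
            lam_ge (a := a + 1) (b := q) (by omega) (by omega), h8, hmaxq]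
          simp only [zero_mul, sub_zero, zero_add]
          have h11 : -(t1 * ((D.p0 q : ℝ) - 2 * (D.p1 q : ℝ))) ≤
              -(t1 * D.W a * ((D.p0 q : ℝ) - 2 * (D.p1 q : ℝ))) := by
            have h12 := mul_le_mul_of_nonneg_left hWa (p0.trans p1)
            have h13 := mul_le_mul_of_nonneg_right h12 h10
            linarith
          have h14 := mul_le_mul_of_nonneg_left h9 (mul_nonneg (p0.trans p1) hWa0)
          refine h11.trans ?_
          linarith
        · rw [if_neg (by omega), neg_zero, lam_ge h (by omega), lam_ge (by omega) (by omega),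
            lam_ge h (by omega), lam_ge (a := a + 1) (b := q) (by omega) (by omega)]
          simp) (fun _ _ _ => le_rfl) (by
      intro z z' h
      by_cases h8 : z' + D.p1 q < n + 1
      · rw [ψ1 z' h8, ψ1 z (by omega)]
        exact D.hU (h6 z z' h (by omega))
      · by_cases h9 : z' + D.p0 a1 < n + 1
        · rw [ψ2 z' h8 h9]
          have h10 := mul_le_mul_of_nonneg_left (D.hU (h6 z z' h (by omega))) (sub_nonneg.2 p2)
          by_cases h11 : z + D.p1 q < n + 1
          · rw [ψ1 z h11]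
            exact h10.trans (ht1U _)
          · rw [ψ2 z h11 (by omega)]
            exact h10
        · rw [ψ3 z' h9]
          exact ψnn z) (fun _ => le_rfl) ψnn (by
      intro y hy
      show 0 + ψ y ≤ _
      rw [zero_add]
      have hyn := D.hX0n y hy
      by_cases h8 : y + D.p1 q < n + 1
      · have h9 : c ≤ ι y := (hgec y hyn h8).trans (h7 y hyn)
        rw [ψ1 y h8, lam_ge (by omega) h9, sub_zero, one_mul]
        exact D.hU (h7 y hyn)
      · by_cases h9 : y + D.p0 a1 < n + 1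
        · rw [ψ2 y h8 h9]
          have h10 : a1 ≤ ι y := (hge y hyn h9).trans (h7 y hyn)
          have h11 : lam t0 a1 c (ι y) ≤ t1 := (lam_le_mid p0 h10).trans p1
          exact mul_le_mul (by linarith) (D.hU (h7 y hyn)) (D.hU0 _)
            (sub_nonneg.2 (lam_le (p1.trans p2)))
        · rw [ψ3 y h9]
          exact mul_nonneg (sub_nonneg.2 (lam_le (p1.trans p2))) (D.hU0 _)) (by
      intro y hy
      have hyn := D.hX1n y hy
      have hm : ∀ a ≤ m y, y ∉ D.X1 a := by
        intro a ha hya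
        have h9 := D.hXp1 a y hya
        have h10 := h4 y hyn a ha
        have h11 := le_max_right (D.p0 a) (D.p1 a)
        omega
      by_cases h8 : y + D.p1 q < n + 1
      · refine ⟨max (m y) q, ?_, ?_⟩
        · intro a ha hya
          rcases le_max_iff.1 ha with h9 | h9
          · exact hm a h9 hya
          · have h10 := D.hXp1 a y hya
            have h11 := D.hp1 h9
            omega
        · rw [ψ1 y h8, lam_ge (le_trans (by omega) (le_max_right _ _)) (le_max_right _ _), sub_zero,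
            one_mul]
          exact D.hU (le_max_left _ _)
      · by_cases h9 : y + D.p0 a1 < n + 1
        · refine ⟨m y, hm, ?_⟩
          rw [ψ2 y h8 h9]
          have h11 : lam t1 a1 q (m y) ≤ t1 := lam_le_mid (p0.trans p1) (hge y hyn h9)
          exact mul_le_mul_of_nonneg_right (by linarith) (D.hU0 _)
        · refine ⟨0, ?_, ?_⟩
          · intro a ha hya
            rw [Nat.le_zero.1 ha, D.hX10] at hya
            simp at hya
          · rw [ψ3 y h9]
            exact mul_nonneg (sub_nonneg.2 (lam_le p2)) (D.hU0 _)) (by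
      intro z hz
      show 2 + t1 * ((if n + 1 ≤ z + D.p0 q then (1 : ℝ) else 0) -
        2 * (if n + 1 ≤ z + D.p1 q then (1 : ℝ) else 0)) ≤
        lam t0 a1 c (ι z) * D.W (ι z) + lam t1 a1 q (m z) * D.W (m z) + (0 + 2 * ψ z)
      have h8 : 0 ≤ lam t0 a1 c (ι z) * D.W (ι z) := mul_nonneg (lam_nonneg p0) (D.hW0 _)
      have h9 : 0 ≤ lam t1 a1 q (m z) * D.W (m z) := mul_nonneg (lam_nonneg (p0.trans p1)) (D.hW0 _)
      have hlow1 := mul_le_mul_of_nonneg_left (D.hUW (m z)) (p0.trans p1)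
      have hlow2 : t1 * ((s - 1) * D.U (m z) + D.W (m z)) = 2 * D.U (m z) - 2 * t1 * D.U (m z) +
          t1 * D.W (m z) := by
        have : t1 * ((s - 1) * D.U (m z) + D.W (m z)) = ((s + 1) * t1) * D.U (m z) -
          2 * t1 * D.U (m z) + t1 * D.W (m z) := by ring
        rw [this, e1]
      rw [hlow2] at hlow1
      have e2 : t1 * s = 2 - t1 := by linarith
      rw [e2] at hlow1
      by_cases h10 : z + D.p1 q < n + 1
      · rw [ψ1 z h10, if_neg (by omega : ¬ n + 1 ≤ z + D.p1 q)]
        have h11 := hgec z hz h10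
        have h12 : 1 ≤ D.U (m z) := hc.trans (D.hU h11)
        by_cases h13 : n + 1 ≤ z + D.p0 q
        · rw [if_pos h13]
          rw [lam_mid (by omega) (hmq z hz h13)] at h9 ⊢
          have h14 := mul_le_mul_of_nonneg_left h12 (p0.trans p1)
          linarith
        · rw [if_neg h13]
          linarith
      · rw [if_pos (by omega : n + 1 ≤ z + D.p1 q), if_pos (by omega : n + 1 ≤ z + D.p0 q)]
        by_cases h11 : z + D.p0 a1 < n + 1
        · rw [ψ2 z h10 h11]
          rw [lam_mid (hge z hz h11) (hmq z hz (by omega))]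
          linarith
        · rw [ψ3 z h11]
          have h12 := hlo z hz h11
          have h13 : m z < a1 := lt_of_le_of_lt (h7 z hz) h12
          rw [lam_lt h12, lam_lt h13]
          have h14 := D.W_ge (hlow _ h12)
          have h15 := D.W_ge (hlow _ h13)
          linarith [p0.trans p1])
  refine le_trans (le_of_eq ?_) key
  have hE : ∑ a ∈ range L, (if a + 1 = q then t1 * ((D.p0 q : ℝ) - 2 * (D.p1 q : ℝ)) else 0) =
      t1 * ((D.p0 q : ℝ) - 2 * (D.p1 q : ℝ)) := by
    rw [Finset.sum_eq_single_of_mem (q - 1) (by rw [Finset.mem_range]; omega)]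
    · rw [if_pos (by omega)]
    · intro a _ ha
      rw [if_neg (by omega)]
  rw [hE, Finset.sum_add_distrib, ← Finset.mul_sum, Finset.sum_sub_distrib, ← Finset.mul_sum,
    pos_card n _ (D.hp0n q), pos_card n _ (D.hp1n q), Finset.sum_const, Finset.card_range, nsmul_eq_mul]
  push_cast
  ring

/-- The value of the linear program. -/
theorem value (D : Data n L s w) (hex : ∃ a, 1 ≤ D.U a) :
    2 * ((n : ℝ) + 1) ≤ ∑ a ∈ range L, D.δ0 a + ∑ a ∈ range L, D.δ1 a := by
  classical
  have hex' : ∃ a, 1 ≤ D.U a ∨ L ≤ a := ⟨L, Or.inr le_rfl⟩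
  obtain ⟨c, hcd⟩ : ∃ c, c = Nat.find hex' := ⟨_, rfl⟩
  have hc1 : 1 ≤ D.U c ∨ L ≤ c := by
    rw [hcd]
    exact Nat.find_spec hex'
  have hc2 : ∀ a < c, ¬ (1 ≤ D.U a ∨ L ≤ a) := by
    intro a ha
    rw [hcd] at ha
    exact Nat.find_min hex' ha
  have hcL : c ≤ L := by
    rw [hcd]
    exact Nat.find_min' hex' (Or.inr le_rfl)
  have hc3 : ∀ a < c, D.U a < 1 := fun a ha => not_le.1 fun h => hc2 a ha (Or.inl h)
  by_cases hA : D.p1 c ≤ D.p0 c
  · exact caseA D c hcL hc3 (hc1.imp id fun h => le_antisymm hcL h) hA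
  · push Not at hA
    have hcL' : c < L := by
      rcases Nat.lt_or_ge c L with h | h
      · exact h
      · have h1 : c = L := le_antisymm hcL h
        rw [h1, D.hp0L] at hA
        have := D.hp1n L
        omega
    have hUc : 1 ≤ D.U c := hc1.resolve_right (by omega)
    obtain ⟨a1, ha1⟩ : ∃ a1, a1 = Nat.findGreatest (fun a => 2 * D.p1 a < D.p0 a) c := ⟨_, rfl⟩
    have ha1c : a1 ≤ c := by
      rw [ha1]
      exact Nat.findGreatest_le c
    have hpa : D.p1 a1 ≤ D.p0 a1 := by
      rcases Nat.eq_zero_or_pos a1 with h | h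
      · rw [h, D.hp00, D.hp10]
      · have h1 := Nat.findGreatest_of_ne_zero (P := fun a => 2 * D.p1 a < D.p0 a) ha1.symm (by omega)
        omega
    have hgood : ∀ a, a1 < a → a ≤ c → D.p0 a ≤ 2 * D.p1 a := by
      intro a h1 h2
      rw [ha1] at h1
      exact not_lt.1 (Nat.findGreatest_is_greatest (P := fun a => 2 * D.p1 a < D.p0 a) h1 h2)
    by_cases hB : ∃ b, c < b ∧ b ≤ L ∧ 2 * D.p1 b < D.p0 b
    · obtain ⟨q, hqd⟩ : ∃ q, q = Nat.find hB := ⟨_, rfl⟩
      have hq1 : c < q ∧ q ≤ L ∧ 2 * D.p1 q < D.p0 q := by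
        rw [hqd]
        exact Nat.find_spec hB
      have hq2 : ∀ b < q, ¬ (c < b ∧ b ≤ L ∧ 2 * D.p1 b < D.p0 b) := by
        intro b hb
        rw [hqd] at hb
        exact Nat.find_min hB hb
      refine caseB2 D a1 c q ha1c hq1.1 hq1.2.1 (fun a ha => hc3 a (by omega)) hUc hpa ?_ hq1.2.2 ?_
      · intro a h1 h2
        rcases Nat.lt_or_ge c a with h3 | h3
        · exact not_lt.1 fun h4 => hq2 a h2 ⟨h3, by omega, h4⟩
        · exact hgood a h1 h3
      · have := D.hp1 hq1.1.le
        omega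
    · push Not at hB
      refine caseB1 D a1 (by omega) (fun a ha => hc3 a (by omega)) hpa ?_
      intro a h1 h2
      rcases Nat.lt_or_ge c a with h3 | h3
      · exact hB a h3 h2
      · exact hgood a h1 h3

end

end Pool.Agent.Lib_helper30.KB
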