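import Pool.Agent.Lib_helper37.RD.Lp

/-!
# The linear program for two rows
-/

set_option autoImplicit false

open Finset

namespace Pool.Agent.Lib_helper30.KB

open Pool.Agent.Lib_helper37.RD

/-- Summation by parts. -/
theorem parts (Q f : ℕ → ℝ) (h0 : f 0 = 0) (L : ℕ) :
    ∑ a ∈ range L, Q a * (f (a + 1) - f a) =
      Q L * f L + ∑ a ∈ range L, (Q a - Q (a + 1)) * f (a + 1) := by
  induction L with
  | zero => simp [h0]
  | succ L ih =>
    rw [Finset.sum_range_succ, Finset.sum_range_succ, ih]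
    ring

/-- The share of the coverage bound at the stage `a`. -/
noncomputable def lam (t : ℝ) (a1 b a : ℕ) : ℝ := if a < a1 then 1 else if a < b then t else 0

section lam

variable {t : ℝ} {a1 b a : ℕ}

theorem lam_nonneg (ht : 0 ≤ t) : 0 ≤ lam t a1 b a := by
  unfold lam
  split_ifs <;> linarith

theorem lam_le (ht : t ≤ 1) : lam t a1 b a ≤ 1 := by
  unfold lam
  split_ifs <;> linarith

theorem lam_lt (h : a < a1) : lam t a1 b a = 1 := by
  unfold lam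
  rw [if_pos h]

theorem lam_mid (h : a1 ≤ a) (h' : a < b) : lam t a1 b a = t := by
  unfold lam
  rw [if_neg (by omega), if_pos h']

theorem lam_ge (h : a1 ≤ a) (h' : b ≤ a) : lam t a1 b a = 0 := by
  unfold lam
  rw [if_neg (by omega), if_neg (by omega)]

theorem lam_anti (ht : 0 ≤ t) (ht1 : t ≤ 1) (a1 b : ℕ) : Antitone (lam t a1 b) := by
  intro a a' h
  unfold lam
  split_ifs <;> first | linarith | omega

end lam

/-- The weights of the coverage. -/
theorem Q_anti {t : ℝ} (ht : 0 ≤ t) (ht1 : t ≤ 1) (a1 b : ℕ) {W : ℕ → ℝ} (hW : Antitone W)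
    (hW0 : ∀ a, 0 ≤ W a) : Antitone fun a => lam t a1 b a * W a := by
  intro a a' h
  exact mul_le_mul (lam_anti ht ht1 a1 b h) (hW h) (hW0 a') (lam_nonneg ht)

/-- The weights of the mass. -/
theorem P_mono {t : ℝ} (ht : 0 ≤ t) (ht1 : t ≤ 1) (a1 b : ℕ) {U : ℕ → ℝ} (hU : Monotone U)
    (hU0 : ∀ a, 0 ≤ U a) : Monotone fun a => (1 - lam t a1 b a) * U a := by
  intro a a' h
  have h1 := lam_anti ht ht1 a1 b h
  have h2 : lam t a1 b a' ≤ 1 := lam_le ht1
  exact mul_le_mul (by linarith) (hU h) (hU0 a) (by linarith)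

open Classical in
/-- The dual bound for one row. -/
theorem row_dual (L : ℕ) (w t : ℝ) (hw : 0 ≤ w) (ht0 : 0 ≤ t) (ht1 : t ≤ 1) (a1 b : ℕ) (U W : ℕ → ℝ)
    (hU : Monotone U) (hU0 : ∀ a, 0 ≤ U a) (X : ℕ → Finset ℕ) (hX : Monotone X) (hX0 : X 0 = ∅)
    (G δ : ℕ → ℝ)
    (h1 : ∀ a < L, U a * (w * (((X (a + 1)).card : ℝ) - ((X a).card : ℝ))) ≤ δ a)
    (h2 : ∀ a < L, W a * (G (a + 1) - G a) ≤ δ a) (ψ : ℕ → ℝ)
    (hψ : ∀ y ∈ X L, ∃ i0, (∀ a ≤ i0, y ∉ X a) ∧ ψ y ≤ (1 - lam t a1 b i0) * U i0) :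
    ∑ a ∈ range L, lam t a1 b a * W a * (G (a + 1) - G a) + ∑ y ∈ X L, w * ψ y ≤
      ∑ a ∈ range L, δ a := by
  have h3 : ∀ a ∈ range L, lam t a1 b a * W a * (G (a + 1) - G a) +
      ∑ y ∈ X L, w * ((1 - lam t a1 b a) * U a * ((if y ∈ X (a + 1) then (1 : ℝ) else 0) -
        (if y ∈ X a then (1 : ℝ) else 0))) ≤ δ a := by
    intro a ha
    rw [Finset.mem_range] at ha
    have h4 : ∑ y ∈ X L, w * ((1 - lam t a1 b a) * U a * ((if y ∈ X (a + 1) then (1 : ℝ) else 0) -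
        (if y ∈ X a then (1 : ℝ) else 0))) =
        (1 - lam t a1 b a) * (U a * (w * (((X (a + 1)).card : ℝ) - ((X a).card : ℝ)))) := by
      rw [← Finset.mul_sum, ← Finset.mul_sum, Finset.sum_sub_distrib, Finset.sum_ite_mem,
        Finset.sum_ite_mem, Finset.inter_eq_right.2 (hX (by omega : a + 1 ≤ L)),
        Finset.inter_eq_right.2 (hX (by omega : a ≤ L))]
      simp only [Finset.sum_const, nsmul_eq_mul, mul_one]
      ring
    rw [h4]
    have h5 : (0 : ℝ) ≤ lam t a1 b a := lam_nonneg ht0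
    have h6 : lam t a1 b a ≤ 1 := lam_le ht1
    have h7 := mul_le_mul_of_nonneg_left (h2 a ha) h5
    have h8 := mul_le_mul_of_nonneg_left (h1 a ha) (by linarith : (0 : ℝ) ≤ 1 - lam t a1 b a)
    calc lam t a1 b a * W a * (G (a + 1) - G a) +
        (1 - lam t a1 b a) * (U a * (w * (((X (a + 1)).card : ℝ) - ((X a).card : ℝ)))) =
        lam t a1 b a * (W a * (G (a + 1) - G a)) +
        (1 - lam t a1 b a) * (U a * (w * (((X (a + 1)).card : ℝ) - ((X a).card : ℝ)))) := by ring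
      _ ≤ lam t a1 b a * δ a + (1 - lam t a1 b a) * δ a := add_le_add h7 h8
      _ = δ a := by ring
  have h4 := Finset.sum_le_sum h3
  rw [Finset.sum_add_distrib, Finset.sum_comm] at h4
  refine le_trans (add_le_add_right ?_ _) h4
  refine Finset.sum_le_sum fun y hy => ?_
  rw [← Finset.mul_sum]
  refine mul_le_mul_of_nonneg_left ?_ hw
  obtain ⟨i0, hi0, hψ0⟩ := hψ y hy
  refine hψ0.trans ?_
  refine jump (fun a => (1 - lam t a1 b a) * U a) (fun a => if y ∈ X a then (1 : ℝ) else 0)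
    (P_mono ht0 ht1 a1 b hU hU0) ?_ L i0 ?_ ?_
  · intro a a' h
    show (if y ∈ X a then (1 : ℝ) else 0) ≤ (if y ∈ X a' then (1 : ℝ) else 0)
    by_cases h5 : y ∈ X a
    · rw [if_pos h5, if_pos (hX h h5)]
    · rw [if_neg h5]
      split_ifs <;> norm_num
  · intro a ha
    show (if y ∈ X a then (1 : ℝ) else 0) = 0
    rw [if_neg (hi0 a ha)]
  · show (if y ∈ X L then (1 : ℝ) else 0) = 1
    rw [if_pos hy]

/-- The entry times of the positions. -/
theorem entry (n L : ℕ) (p : ℕ → ℕ) (hp : Monotone p) (hp0 : p 0 = 0) (hpL : p L = n + 1) :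
    ∃ ι : ℕ → ℕ, (∀ z ≤ n, ∀ a, ι z < a → n + 1 ≤ z + p a) ∧
      (∀ z ≤ n, ∀ a ≤ ι z, z + p a < n + 1) ∧ ∀ z z', z ≤ z' → z' ≤ n → ι z' ≤ ι z := by
  classical
  have h1 : ∀ z ≤ n, ∀ a, Nat.findGreatest (fun a => z + p a < n + 1) L < a → n + 1 ≤ z + p a := by
    intro z hz a ha
    rcases Nat.lt_or_ge L a with h | h
    · have := hp h.le
      omega
    · have := Nat.findGreatest_is_greatest ha h
      omega
  have h2 : ∀ z ≤ n, ∀ a ≤ Nat.findGreatest (fun a => z + p a < n + 1) L, z + p a < n + 1 := by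
    intro z hz a ha
    have h3 := Nat.findGreatest_spec (P := fun a => z + p a < n + 1) (m := 0) (n := L) (Nat.zero_le _)
      (by show z + p 0 < n + 1; omega)
    have h4 := hp ha
    omega
  refine ⟨fun z => Nat.findGreatest (fun a => z + p a < n + 1) L, h1, h2, ?_⟩
  intro z z' hz hz'
  by_contra h
  push Not at h
  have h3 := h1 z (by omega) _ h
  have h4 := h2 z' hz' _ le_rfl
  omega

theorem pos_card (n p : ℕ) (hp : p ≤ n + 1) :
    ∑ z ∈ range (n + 1), (if n + 1 ≤ z + p then (1 : ℝ) else 0) = (p : ℝ) := by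
  rw [Finset.sum_boole]
  congr 1
  have h1 : (range (n + 1)).filter (fun z => n + 1 ≤ z + p) = Finset.Ico (n + 1 - p) (n + 1) := by
    ext z
    rw [Finset.mem_filter, Finset.mem_range, Finset.mem_Ico]
    omega
  rw [h1, Nat.card_Ico]
  omega

/-- The coverage as a sum over the positions. -/
theorem pos_sum (n L : ℕ) (Q : ℕ → ℝ) (hQ : Antitone Q) (p : ℕ → ℕ) (hp : Monotone p) (hp0 : p 0 = 0)
    (hpn : ∀ a, p a ≤ n + 1) (hpL : p L = n + 1) (ι : ℕ → ℕ)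
    (hι : ∀ z ≤ n, ∀ a, ι z < a → n + 1 ≤ z + p a) :
    ∑ z ∈ range (n + 1), Q (ι z) ≤ ∑ a ∈ range L, Q a * ((p (a + 1) : ℝ) - (p a : ℝ)) := by
  have h1 : ∀ a, (p a : ℝ) = ∑ z ∈ range (n + 1), (if n + 1 ≤ z + p a then (1 : ℝ) else 0) :=
    fun a => (pos_card n (p a) (hpn a)).symm
  have h2 : ∑ a ∈ range L, Q a * ((p (a + 1) : ℝ) - (p a : ℝ)) = ∑ z ∈ range (n + 1),
      ∑ a ∈ range L, Q a * ((if n + 1 ≤ z + p (a + 1) then (1 : ℝ) else 0) -
        (if n + 1 ≤ z + p a then (1 : ℝ) else 0)) := by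
    rw [Finset.sum_comm]
    refine Finset.sum_congr rfl fun a _ => ?_
    rw [h1 a, h1 (a + 1), ← Finset.sum_sub_distrib, Finset.mul_sum]
  rw [h2]
  refine Finset.sum_le_sum fun z hz => ?_
  rw [Finset.mem_range] at hz
  refine jump' Q (fun a => if n + 1 ≤ z + p a then (1 : ℝ) else 0) hQ ?_ L (ι z) ?_ ?_ ?_
  · intro a a' h
    show (if n + 1 ≤ z + p a then (1 : ℝ) else 0) ≤ (if n + 1 ≤ z + p a' then (1 : ℝ) else 0)
    have := hp h
    by_cases h5 : n + 1 ≤ z + p a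
    · rw [if_pos h5, if_pos (by omega)]
    · rw [if_neg h5]
      split_ifs <;> norm_num
  · show (if n + 1 ≤ z + p 0 then (1 : ℝ) else 0) = 0
    rw [if_neg (by omega)]
  · intro a ha
    show (if n + 1 ≤ z + p a then (1 : ℝ) else 0) = 1
    rw [if_pos (hι z (by omega) a ha)]
  · show (if n + 1 ≤ z + p L then (1 : ℝ) else 0) = 1
    rw [if_pos (by omega)]

/-- The mass as a sum over the positions. -/
theorem mass_abel (n : ℕ) (w : ℝ) (A0 A1 : Finset ℕ) (hA0 : ∀ y ∈ A0, y ≤ n) (hA1 : ∀ y ∈ A1, y ≤ n)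
    (h1 : ∀ z ≤ n, (z : ℝ) + 1 ≤ w * ((A0.filter (· ≤ z)).card : ℝ))
    (h2 : ∀ z ≤ n, 2 * ((z : ℝ) + 1) ≤ w * (((A0.filter (· ≤ z)).card : ℝ) +
      ((A1.filter (· ≤ z)).card : ℝ))) (ψ0 ψ1 : ℕ → ℝ) (hψ0 : Antitone ψ0) (hψ1 : Antitone ψ1)
    (h0 : ∀ z, 0 ≤ ψ0 z) (h0' : ∀ z, 0 ≤ ψ1 z) :
    ∑ z ∈ range (n + 1), (ψ0 z + 2 * ψ1 z) ≤
      ∑ y ∈ A0, w * (ψ0 y + ψ1 y) + ∑ y ∈ A1, w * ψ1 y := by
  classical
  have hs : ∀ (A : Finset ℕ), (∀ y ∈ A, y ≤ n) → ∀ ψ : ℕ → ℝ, ∑ y ∈ A, w * ψ y =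
      ∑ z ∈ range (n + 1), ψ z * (w * (if z ∈ A then (1 : ℝ) else 0)) := by
    intro A hA ψ
    have h3 : ∀ z ∈ range (n + 1), ψ z * (w * (if z ∈ A then (1 : ℝ) else 0)) =
        (if z ∈ A then w * ψ z else 0) := by
      intro z _
      split_ifs <;> ring
    rw [Finset.sum_congr rfl h3, Finset.sum_ite_mem, Finset.inter_eq_right.2]
    intro y hy
    rw [Finset.mem_range]
    have := hA y hy
    omega
  have hc : ∀ (A : Finset ℕ), ∀ z ≤ n, ∑ y ∈ range (z + 1), (if y ∈ A then (1 : ℝ) else 0) =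
      ((A.filter (· ≤ z)).card : ℝ) := by
    intro A z _
    rw [Finset.sum_boole]
    congr 2
    ext y
    simp only [Finset.mem_filter, Finset.mem_range]
    constructor
    · rintro ⟨h7, h8⟩; exact ⟨h8, by omega⟩
    · rintro ⟨h7, h8⟩; exact ⟨by omega, h7⟩
  have hb0 := abel_le ψ0 (fun z => w * (if z ∈ A0 then (1 : ℝ) else 0)) (fun _ => 1) hψ0 h0 (n + 1) (by
    intro i hi
    rw [Finset.sum_const, Finset.card_range, nsmul_eq_mul, mul_one]
    rcases Nat.eq_zero_or_pos i with h4 | h4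
    · rw [h4]; simp
    · obtain ⟨i, rfl⟩ : ∃ i', i = i' + 1 := ⟨i - 1, by omega⟩
      rw [← Finset.mul_sum, hc A0 i (by omega)]
      have := h1 i (by omega)
      push_cast
      linarith)
  have hb1 := abel_le ψ1 (fun z => w * (if z ∈ A0 then (1 : ℝ) else 0) +
      w * (if z ∈ A1 then (1 : ℝ) else 0)) (fun _ => 2) hψ1 h0' (n + 1) (by
    intro i hi
    rw [Finset.sum_const, Finset.card_range, nsmul_eq_mul]
    rcases Nat.eq_zero_or_pos i with h4 | h4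
    · rw [h4]; simp
    · obtain ⟨i, rfl⟩ : ∃ i', i = i' + 1 := ⟨i - 1, by omega⟩
      rw [Finset.sum_add_distrib, ← Finset.mul_sum, ← Finset.mul_sum, hc A0 i (by omega),
        hc A1 i (by omega)]
      have := h2 i (by omega)
      push_cast
      linarith)
  rw [hs A0 hA0 (fun y => ψ0 y + ψ1 y), hs A1 hA1 ψ1]
  have h5 : ∑ z ∈ range (n + 1), (ψ0 z + ψ1 z) * (w * (if z ∈ A0 then (1 : ℝ) else 0)) +
      ∑ z ∈ range (n + 1), ψ1 z * (w * (if z ∈ A1 then (1 : ℝ) else 0)) =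
      ∑ z ∈ range (n + 1), ψ0 z * (w * (if z ∈ A0 then (1 : ℝ) else 0)) +
      ∑ z ∈ range (n + 1), ψ1 z * (w * (if z ∈ A0 then (1 : ℝ) else 0) +
        w * (if z ∈ A1 then (1 : ℝ) else 0)) := by
    rw [← Finset.sum_add_distrib, ← Finset.sum_add_distrib]
    exact Finset.sum_congr rfl fun z _ => by ring
  rw [h5]
  refine le_trans (le_of_eq ?_) (add_le_add hb0 hb1)
  rw [← Finset.sum_add_distrib]
  exact Finset.sum_congr rfl fun z _ => by ring

end Pool.Agent.Lib_helper30.KB
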